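import Pool.Agent.U226.SG.Neg
import Pool.Agent.Y133.Half.Pow
import Pool.Agent.N181.Gap.GDefs

/-!
# Isometries between products with powers
-/

set_option autoImplicit false
set_option linter.unusedSectionVars false

open CategoryTheory AlgebraicGeometry Finset

universe u v

namespace Pool.Agent.U226.SG

open Module
open Pool.Agent.H914 Pool.Agent.H914.VarClass Pool.Agent.H914.VarClass.Obj
  Pool.Agent.H914.WeilCohomology Pool.Agent.H281R3.HT Pool.Agent.W552
open Pool.Agent.Y133.Half (xp θ₃ prodCongr)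
open Pool.Agent.N181.Gap (powProd)

variable {k : Type u} [Field k] {𝒱 : VarClass k} {ops : CycleOps 𝒱}
  {W : WeilCohomology.{u, v} ops} {X Y Z : 𝒱.Obj}

/-- There is an isomorphism which preserves the forms. -/
def Iz (A B : Ob W) : Prop :=
  ∃ θ : A.X ≅ B.X, ∀ x y, A.b (W.map θ.hom x) (W.map θ.hom y) = B.b x y

lemma Iz.refl (A : Ob W) : Iz A A :=
  ⟨Iso.refl _, fun x y => by
    change A.b (W.map (𝟙 A.X) x) (W.map (𝟙 A.X) y) = _
    rw [W.map_id, W.map_id]⟩

lemma Iz.trans {A B C : Ob W} (h : Iz A B) (h' : Iz B C) : Iz A C := by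
  obtain ⟨θ, h1⟩ := h
  obtain ⟨θ', h2⟩ := h'
  refine ⟨θ ≪≫ θ', fun x y => ?_⟩
  change A.b (W.map (θ.hom ≫ θ'.hom) x) (W.map (θ.hom ≫ θ'.hom) y) = _
  rw [W.map_comp, W.map_comp, h1, h2]

lemma Iz.assoc (A B C : Ob W) : Iz ((A.prod B).prod C) (A.prod (B.prod C)) :=
  ⟨θ₃ A.X B.X C.X, assoc_b A B C⟩

lemma Iz.prod (P : Ob W) {A B : Ob W} (h : Iz A B) : Iz (P.prod A) (P.prod B) := by
  obtain ⟨θ, h1⟩ := h
  have e0 : (prodCongr (Iso.refl P.X) θ).hom =
      Obj.lift (fst P.X A.X ≫ 𝟙 P.X) (snd P.X A.X ≫ θ.hom) := rfl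
  have e : ∀ a b, W.map (prodCongr (Iso.refl P.X) θ).hom (W.map (fst P.X B.X) a *
      W.map (snd P.X B.X) b) = W.map (fst P.X A.X) a * W.map (snd P.X A.X) (W.map θ.hom b) := by
    intro a b
    rw [e0, map_mul (W.map (Obj.lift (fst P.X A.X ≫ 𝟙 P.X) (snd P.X A.X ≫ θ.hom))),
      ← W.map_comp, ← W.map_comp, Obj.lift_fst, Obj.lift_snd, Category.comp_id, W.map_comp]
  refine ⟨prodCongr (Iso.refl P.X) θ, fun x y => ?_⟩
  have key : ((P.prod A).b.compl₂ (W.map (prodCongr (Iso.refl P.X) θ).hom).toLinearMap) ∘ₗ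
      (W.map (prodCongr (Iso.refl P.X) θ).hom).toLinearMap = (P.prod B).b := by
    apply ext_kunneth_lin
    intro a b
    apply ext_kunneth_lin
    intro a' b'
    rw [LinearMap.comp_apply, LinearMap.compl₂_apply, AlgHom.toLinearMap_apply,
      AlgHom.toLinearMap_apply, e, e]
    have h2 := P.b_ext A a a' (W.map θ.hom b) (W.map θ.hom b')
    have h3 := P.b_ext B a a' b b'
    rw [h1] at h2
    exact h2.trans h3.symm
  exact congrArg (fun F => F x y) key

lemma Iz.sg {A B : Ob W} (h : Iz A B) : Sg A 1 = Sg B 1 := by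
  obtain ⟨θ, h1⟩ := h
  exact Sg_iso θ h1 (fun x => rfl) Pr.one

lemma it_add (Q Z : Ob W) (a b : ℕ) : it Q (it Q Z a) b = it Q Z (a + b) := by
  induction b with
  | zero => rfl
  | succ b ih =>
    change Q.prod (it Q (it Q Z a) b) = Q.prod (it Q Z (a + b))
    rw [ih]

lemma Iz.it_one (Y P : Ob W) (m : ℕ) : Iz ((it Y Y m).prod P) (it Y P (m + 1)) := by
  induction m with
  | zero => exact Iz.refl _
  | succ m ih => exact (Iz.assoc Y (it Y Y m) P).trans (Iz.prod Y ih)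

lemma Iz.it_pow (Y Z : Ob W) (m n : ℕ) : Iz (it (it Y Y m) Z n) (it Y Z ((m + 1) * n)) := by
  induction n with
  | zero => exact Iz.refl _
  | succ n ih =>
    have h1 := (Iz.prod (it Y Y m) ih).trans (Iz.it_one Y (it Y Z ((m + 1) * n)) m)
    rw [it_add] at h1
    exact h1

lemma it_X (Y Z : Ob W) (n : ℕ) : (it Y Z n).X = powProd Y.X Z.X n := by
  induction n with
  | zero => rfl
  | succ n ih =>
    change Y.X.prod (it Y Z n).X = Y.X.prod (powProd Y.X Z.X n)
    rw [ih]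

lemma finrank_it (Y Z : Ob W) (n : ℕ) : finrank W.K (W.H (it Y Z n).X) =
    finrank W.K (W.H Y.X) ^ n * finrank W.K (W.H Z.X) := by
  induction n with
  | zero => rw [pow_zero, one_mul]; rfl
  | succ n ih =>
    change finrank W.K (W.H (Y.X.prod (it Y Z n).X)) = _
    rw [Pool.Agent.Y133.Half.finrank_prod, ih, pow_succ']
    ring

lemma b_one_prod (A B : Ob W) : (A.prod B).b 1 1 = A.b 1 1 * B.b 1 1 := by
  have h := A.b_ext B 1 1 1 1
  have h1 : (H281R3.HT.ext W 1 1 : W.H (A.X.prod B.X)) = 1 := by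
    rw [H281R3.HT.ext, map_one, map_one, mul_one]
  rw [h1] at h
  exact h

lemma b_one_it {Y Z : Ob W} {δ δ' : ℚ} (h : Y.b 1 1 = δ) (h' : Z.b 1 1 = δ') (n : ℕ) :
    (it Y Z n).b 1 1 = ((δ ^ n * δ' : ℚ) : W.K) := by
  induction n with
  | zero => rw [pow_zero, one_mul]; exact h'
  | succ n ih =>
    change (Y.prod (it Y Z n)).b 1 1 = _
    rw [b_one_prod, h, ih, pow_succ']
    push_cast
    ring

end Pool.Agent.U226.SG
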