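import Mathlib

/-!
# The asymptotic consequences
-/

set_option autoImplicit false

open Filter Topology

namespace Pool.Agent.U226.SG

/-- Polynomials are smaller than exponentials. -/
lemma poly_exp (D : ℕ) {q : ℝ} (hq : 0 < q) (hq1 : q < 1) :
    ∃ C : ℝ, 0 ≤ C ∧ ∀ N : ℕ, ((N : ℝ) + 1) ^ D * q ^ N ≤ C := by
  have h := tendsto_pow_const_mul_const_pow_of_abs_lt_one D (r := q)
    (by rw [abs_of_pos hq]; exact hq1)
  obtain ⟨C, hC⟩ := h.bddAbove_range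
  refine ⟨max C 0 / q, div_nonneg (le_max_right _ _) hq.le, fun N => ?_⟩
  have h1 := hC ⟨N + 1, rfl⟩
  rw [le_div_iff₀ hq]
  change (((N + 1 : ℕ) : ℝ)) ^ D * q ^ (N + 1) ≤ C at h1
  push_cast at h1
  calc ((N : ℝ) + 1) ^ D * q ^ N * q = ((N : ℝ) + 1) ^ D * q ^ (N + 1) := by ring
    _ ≤ C := h1
    _ ≤ max C 0 := le_max_left _ _

theorem concl {m h b D : ℕ} (hb : b = h ^ (m + 1)) (hh : 0 < h) {S R : ℕ → ℝ} {bZ : ℝ}
    (hbZ : 0 ≤ bZ)
    (h1 : ∀ n r, S ((m + 1) * (n + 1) + r) ≤ b * (((b : ℝ) - 1) ^ n * ((h : ℝ) ^ r * bZ)))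
    (h0 : ∀ N, S N ≤ (h : ℝ) ^ N * bZ)
    (hlow : ∀ N : ℕ, (h : ℝ) ^ N ≤ D * (((N : ℝ) + 1) ^ D * R N)) {ρ : ℝ} (hρ0 : 0 < ρ)
    (hρ : 1 - 1 / (b : ℝ) < ρ ^ (m + 1)) : ∃ C : ℝ, 0 ≤ C ∧ ∀ N, S N ≤ C * ρ ^ N * R N := by
  have hh1 : (1 : ℝ) ≤ h := by exact_mod_cast hh
  have hb1 : (1 : ℝ) ≤ b := by
    rw [hb]; push_cast; exact one_le_pow₀ hh1
  have hb0 : (0 : ℝ) < b := by linarith
  -- a smaller base
  obtain ⟨ρ', hρ'0, hρ'1, hρ'⟩ : ∃ ρ' : ℝ, 0 < ρ' ∧ ρ' < ρ ∧ 1 - 1 / (b : ℝ) < ρ' ^ (m + 1) := by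
    have e1 : ∀ᶠ x in 𝓝[<] ρ, 1 - 1 / (b : ℝ) < x ^ (m + 1) :=
      (((continuous_pow (m + 1)).continuousAt (x := ρ)).eventually (lt_mem_nhds hρ)).filter_mono
        nhdsWithin_le_nhds
    have e2 : ∀ᶠ x in 𝓝[<] ρ, 0 < x := (lt_mem_nhds hρ0).filter_mono nhdsWithin_le_nhds
    have e3 : ∀ᶠ x in 𝓝[<] ρ, x < ρ := self_mem_nhdsWithin
    obtain ⟨x, hx1, hx2, hx3⟩ := (e1.and (e2.and e3)).exists
    exact ⟨x, hx2, hx3, hx1⟩
  set β : ℝ := ρ' * h with hβ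
  have hβ0 : 0 < β := by positivity
  have hβb : (b : ℝ) - 1 ≤ β ^ (m + 1) := by
    rw [hβ, mul_pow]
    have e1 : ((h : ℝ)) ^ (m + 1) = b := by rw [hb]; push_cast; rfl
    rw [e1]
    have e2 : (1 - 1 / (b : ℝ)) * b = b - 1 := by field_simp
    rw [← e2]
    exact mul_le_mul_of_nonneg_right hρ'.le hb0.le
  set μ : ℝ := min 1 β with hμ
  have hμ0 : 0 < μ := lt_min one_pos hβ0
  have hμ1 : μ ≤ 1 := min_le_left _ _
  have hμβ : ∀ j, j ≤ 2 * m + 1 → μ ^ (2 * m + 1) ≤ β ^ j := by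
    intro j hj
    calc μ ^ (2 * m + 1) ≤ μ ^ j := pow_le_pow_of_le_one hμ0.le hμ1 hj
      _ ≤ β ^ j := pow_le_pow_left₀ hμ0.le (min_le_right _ _) j
  set C1 : ℝ := b * (h ^ m * bZ) / μ ^ (2 * m + 1) with hC1
  have hC1' : ∀ j, j ≤ 2 * m + 1 → b * (h ^ m * bZ) ≤ C1 * β ^ j := by
    intro j hj
    rw [hC1, div_mul_eq_mul_div, le_div_iff₀ (by positivity)]
    exact mul_le_mul_of_nonneg_left (hμβ j hj) (by positivity)
  have hC10 : 0 ≤ C1 := by positivity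
  have key : ∀ N, S N ≤ C1 * β ^ N := by
    intro N
    rcases Nat.lt_or_ge N (m + 1) with hN | hN
    · refine (h0 N).trans (le_trans ?_ (hC1' N (by omega)))
      have e1 : (h : ℝ) ^ N ≤ (h : ℝ) ^ m := pow_le_pow_right₀ hh1 (by omega)
      have e2 : (h : ℝ) ^ N * bZ ≤ (h : ℝ) ^ m * bZ := mul_le_mul_of_nonneg_right e1 hbZ
      have e3 : 0 ≤ (h : ℝ) ^ m * bZ := by positivity
      nlinarith
    · obtain ⟨n, r, hr, rfl⟩ : ∃ n r, r ≤ m ∧ N = (m + 1) * (n + 1) + r := by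
        refine ⟨N / (m + 1) - 1, N % (m + 1), ?_, ?_⟩
        · exact Nat.lt_succ_iff.1 (Nat.mod_lt N (Nat.succ_pos m))
        · have h2 : 1 ≤ N / (m + 1) := (Nat.one_le_div_iff (Nat.succ_pos m)).2 hN
          rw [Nat.sub_add_cancel h2]
          exact (Nat.div_add_mod N (m + 1)).symm
      refine (h1 n r).trans ?_
      have e1 : ((b : ℝ) - 1) ^ n ≤ (β ^ (m + 1)) ^ n :=
        pow_le_pow_left₀ (by linarith) hβb n
      have e2 : (h : ℝ) ^ r * bZ ≤ (h : ℝ) ^ m * bZ :=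
        mul_le_mul_of_nonneg_right (pow_le_pow_right₀ hh1 hr) hbZ
      calc (b : ℝ) * (((b : ℝ) - 1) ^ n * ((h : ℝ) ^ r * bZ)) ≤
          b * ((β ^ (m + 1)) ^ n * ((h : ℝ) ^ m * bZ)) := by
            apply mul_le_mul_of_nonneg_left _ hb0.le
            exact mul_le_mul e1 e2 (by positivity) (by positivity)
        _ = (b * ((h : ℝ) ^ m * bZ)) * (β ^ (m + 1)) ^ n := by ring
        _ ≤ (C1 * β ^ (m + 1 + r)) * (β ^ (m + 1)) ^ n := by
            apply mul_le_mul_of_nonneg_right (hC1' _ (by omega)) (by positivity)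
        _ = C1 * β ^ ((m + 1) * (n + 1) + r) := by
            rw [← pow_mul, mul_assoc, ← pow_add]
            congr 2
            ring
  obtain ⟨C2, hC2, hC2'⟩ := poly_exp D (q := ρ' / ρ) (by positivity)
    ((div_lt_one hρ0).2 hρ'1)
  refine ⟨C1 * (D * C2), by positivity, fun N => ?_⟩
  refine (key N).trans ?_
  have e0 : 0 ≤ R N := by
    by_contra hneg
    push Not at hneg
    have e1 := hlow N
    have e2 : (0 : ℝ) < (h : ℝ) ^ N := by positivity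
    have e3 : (D : ℝ) * (((N : ℝ) + 1) ^ D * R N) ≤ 0 := by
      apply mul_nonpos_of_nonneg_of_nonpos (Nat.cast_nonneg _)
      apply mul_nonpos_of_nonneg_of_nonpos (by positivity) hneg.le
    linarith
  have e1 : β ^ N = ρ' ^ N * (h : ℝ) ^ N := by rw [hβ, mul_pow]
  calc C1 * β ^ N = C1 * (ρ' ^ N * (h : ℝ) ^ N) := by rw [e1]
    _ ≤ C1 * (ρ' ^ N * (D * (((N : ℝ) + 1) ^ D * R N))) := by
        apply mul_le_mul_of_nonneg_left _ hC10
        exact mul_le_mul_of_nonneg_left (hlow N) (by positivity)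
    _ = C1 * (D * ((((N : ℝ) + 1) ^ D * (ρ' / ρ) ^ N) * ρ ^ N * R N)) := by
        rw [div_pow]
        field_simp
    _ ≤ C1 * (D * (C2 * ρ ^ N * R N)) := by
        apply mul_le_mul_of_nonneg_left _ hC10
        apply mul_le_mul_of_nonneg_left _ (Nat.cast_nonneg _)
        apply mul_le_mul_of_nonneg_right _ e0
        exact mul_le_mul_of_nonneg_right (hC2' N) (by positivity)
    _ = C1 * (D * C2) * ρ ^ N * R N := by ring

end Pool.Agent.U226.SG
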