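import Pool.Agent.U226.SG.Tot3
import Pool.Agent.U226.SG.Pows
import Pool.Agent.U226.SG.Real
import Pool.Agent.W552.FrobMain

/-!
# Zero-one law for the standard conjecture of Hodge type
-/

set_option autoImplicit false
set_option linter.unusedSectionVars false

open CategoryTheory AlgebraicGeometry Finset

universe u v

namespace Pool.Agent.U226.SG

open Module
open Pool.Agent.H914 Pool.Agent.H914.VarClass Pool.Agent.H914.VarClass.Obj
  Pool.Agent.H914.WeilCohomology Pool.Agent.H281R3.HT Pool.Agent.W552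
open Pool.Agent.W539.Ker (Primitive pairing Gd exists_gd)
open Pool.Agent.N181.Gap (rkSum powProd)

variable {k : Type u} [Field k] {𝒱 : VarClass k} {ops : CycleOps 𝒱}

/-- The product `Y × (Y × (⋯ × (Y × Z)))` with `n` factors `Y`, with the sum of the pull-backs of
the divisors. -/
noncomputable def times (ops : CycleOps 𝒱) (Y Z : Polarized 𝒱) : ℕ → Polarized 𝒱
  | 0 => Z
  | n + 1 => Y.prod ops (times ops Y Z n)

/-- The divisor satisfies the hard Lefschetz theorem and the Lefschetz standard conjecture. -/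
def Lef (W : WeilCohomology.{u, v} ops) (P : Polarized 𝒱) : Prop :=
  P.X.IsCyc 1 P.D ∧ HardLefschetz W P.X P.D ∧ LefschetzB W P.X P.D

/-- The standard conjecture of Hodge type modulo numerical equivalence: for `2 j ≤ d = dim X`,
every cycle `z` of codimension `j` whose class is primitive and which is not numerically
equivalent to zero satisfies `0 < ⟨z, z⟩ = (-1) ^ j deg (z · D ^ (d - 2 j) · z)`. -/
def HodgeNum (W : WeilCohomology.{u, v} ops) (P : Polarized 𝒱) : Prop :=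
  ∀ j, 2 * j ≤ P.X.dim → ∀ z, Primitive W P.X P.D j z →
    (∃ w, P.X.IsCyc (P.X.dim - j) w ∧ P.X.V.degCycle (ops.mul z w) ≠ 0) →
      0 < pairing ops P.X P.D j z z

variable {W : WeilCohomology.{u, v} ops}

/-- The pair underlying an object. -/
def Ob.pol (A : Ob W) : Polarized 𝒱 := ⟨A.X, A.D⟩

lemma pol_it (A B : Ob W) (n : ℕ) : (it A B n).pol = times ops A.pol B.pol n := by
  induction n with
  | zero => rfl
  | succ n ih =>
    change A.pol.prod ops (it A B n).pol = A.pol.prod ops (times ops A.pol B.pol n)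
    rw [ih]

/-- The object attached to a pair. -/
lemma exists_ob {P : Polarized 𝒱} (h : Lef W P) : ∃ A : Ob W, A.pol = P ∧
    AOp W A.X A.X (par (W.isInternal A.X)) := by
  obtain ⟨f, G⟩ := exists_gd h.1 h.2.1 h.2.2
  exact ⟨⟨P.X, P.D, f, G.fr, G.sy⟩, rfl, G.pa⟩


/-- The degree of the divisor: `deg (D ^ dim)`. -/
noncomputable def topDeg (P : Polarized 𝒱) (ops : CycleOps 𝒱) : ℚ :=
  P.X.V.degCycle (divPow ops P.D P.X.dim P.X.V.fundCycle)

lemma b_one (A : Ob W) : A.b 1 1 = (((A.X.dim.factorial : ℚ)⁻¹ * topDeg A.pol ops : ℚ) : W.K) :=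
  A.fr.bf_one

lemma Sg_it (A B : Ob W) (n : ℕ) : Sg (it A B n) 1 =
    posT W (times ops A.pol B.pol n) - negT W (times ops A.pol B.pol n) := by
  rw [Sg_eq_sub, ← pol_it]
  rfl

/-- **The explicit bound.** -/
theorem main_bound {Y : Polarized 𝒱} (hY : Lef W Y) (hdeg : 0 < topDeg Y ops) {m : ℕ}
    (hneg : ¬ HodgeNum W (times ops Y Y m)) {Z : Polarized 𝒱} (hZ : Lef W Z) (n r : ℕ) :
    |posT W (times ops Y Z ((m + 1) * (n + 1) + r)) -
      negT W (times ops Y Z ((m + 1) * (n + 1) + r))| ≤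
      (finrank W.K (W.H Y.X) ^ (m + 1) : ℕ) * ((finrank W.K (W.H Y.X) ^ (m + 1) - 1) ^ n *
        (finrank W.K (W.H Y.X) ^ r * finrank W.K (W.H Z.X)) : ℕ) := by
  obtain ⟨A, rfl, -⟩ := exists_ob hY
  obtain ⟨B, rfl, -⟩ := exists_ob hZ
  rw [← pol_it] at hneg
  -- a class with negative square
  obtain ⟨c, γ, hc, hγ, hcc⟩ : ∃ (c : W.H (it A A m).X) (γ : ℚ), AS W (it A A m).X c ∧ γ < 0 ∧
      (it A A m).b c c = γ := by
    rw [HodgeNum] at hneg
    push Not at hneg
    obtain ⟨j, hj, z, ⟨hz, hprim⟩, ⟨w, hw, hzw⟩, hle⟩ := hneg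
    exact exists_neg (it A A m) hj hz hprim hw hzw hle
  have hδ : (it A A m).b 1 1 = (((((A.X.dim.factorial : ℚ)⁻¹ * topDeg A.pol ops) ^ m) *
      ((A.X.dim.factorial : ℚ)⁻¹ * topDeg A.pol ops) : ℚ) : W.K) :=
    b_one_it (b_one A) (b_one A) m
  have hδ0 : 0 < (A.X.dim.factorial : ℚ)⁻¹ * topDeg A.pol ops :=
    mul_pos (inv_pos.2 (by exact_mod_cast Nat.factorial_pos _)) hdeg
  have h1 := bound_neg (it A A m) hc hγ (mul_pos (pow_pos hδ0 m) hδ0) hcc hδ (it A B r) n
  have h2 : Sg (it (it A A m) (it A B r) (n + 1)) 1 = Sg (it A B ((m + 1) * (n + 1) + r)) 1 := by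
    rw [(Iz.it_pow A (it A B r) m (n + 1)).sg, it_add, add_comm r]
  rw [h2, Sg_it, finrank_it, finrank_it, ← pow_succ] at h1
  exact h1

lemma times_X (Y Z : Polarized 𝒱) (n : ℕ) : (times ops Y Z n).X = powProd Y.X Z.X n := by
  induction n with
  | zero => rfl
  | succ n ih =>
    change Y.X.prod (times ops Y Z n).X = Y.X.prod (powProd Y.X Z.X n)
    rw [ih]

/-- The rank of the group of cycles modulo numerical equivalence is the sum. -/
theorem main_rank {Y Z : Polarized 𝒱} (hY : Lef W Y) (hZ : Lef W Z) (n : ℕ) :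
    (rkSum ops (times ops Y Z n).X : ℤ) =
      posT W (times ops Y Z n) + negT W (times ops Y Z n) := by
  obtain ⟨A, rfl, -⟩ := exists_ob hY
  obtain ⟨B, rfl, -⟩ := exists_ob hZ
  rw [← pol_it]
  exact rank_eq (it A B n)

/-- **The asymptotic form.** -/
theorem main_ratio {Y : Polarized 𝒱} (hY : Lef W Y) (hdeg : 0 < topDeg Y ops) {m : ℕ}
    (hneg : ¬ HodgeNum W (times ops Y Y m)) {Z : Polarized 𝒱} (hZ : Lef W Z) {ρ : ℝ}
    (hρ0 : 0 < ρ) (hρ : 1 - 1 / ((finrank W.K (W.H Y.X) : ℝ) ^ (m + 1)) < ρ ^ (m + 1)) :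
    ∃ C : ℝ, 0 ≤ C ∧ ∀ n, |(posT W (times ops Y Z n) : ℝ) - negT W (times ops Y Z n)| ≤
      C * ρ ^ n * (posT W (times ops Y Z n) + negT W (times ops Y Z n)) := by
  have hb := fun n r => main_bound hY hdeg hneg hZ n r
  have hrk := fun n => main_rank hY hZ n
  obtain ⟨A, rfl, hpar⟩ := exists_ob hY
  obtain ⟨B, rfl, -⟩ := exists_ob hZ
  set h := finrank W.K (W.H A.X) with hh
  set bZ := finrank W.K (W.H B.X) with hbZ
  have h00 : ∀ N, |posT W (times ops A.pol B.pol N) - negT W (times ops A.pol B.pol N)| ≤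
      (h ^ N * bZ : ℕ) := by
    intro N
    have h1 := Sg_le (it A B N) Pr.one
    rw [range_one, finrank_it, Sg_it] at h1
    exact_mod_cast h1
  rcases Nat.eq_zero_or_pos bZ with hz | hz
  · refine ⟨0, le_rfl, fun n => ?_⟩
    have h1 := h00 n
    rw [hz, mul_zero] at h1
    have h2 : (|(posT W (times ops A.pol B.pol n) : ℝ) - negT W (times ops A.pol B.pol n)|) ≤
        0 := by exact_mod_cast h1
    simpa using h2
  have hB1 : (1 : W.H B.X) ≠ 0 := by
    intro h0
    have : Nontrivial (W.H B.X) := Module.finrank_pos_iff.1 hz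
    exact one_ne_zero h0
  have hA1 : (1 : W.H A.X) ≠ 0 := by
    intro h0
    have h1 := b_one A
    rw [h0, map_zero] at h1
    have h2 : (A.X.dim.factorial : ℚ)⁻¹ * topDeg A.pol ops = 0 := by exact_mod_cast h1.symm
    have hδ0 : 0 < (A.X.dim.factorial : ℚ)⁻¹ * topDeg A.pol ops :=
      mul_pos (inv_pos.2 (by exact_mod_cast Nat.factorial_pos _)) hdeg
    exact hδ0.ne' h2
  have hh0 : 0 < h := Module.finrank_pos_iff.2 ⟨1, 0, hA1⟩
  obtain ⟨y, hy, hy0⟩ := Pool.Agent.H914.exists_top (W := W) hY.1 hY.2.1 hA1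
  obtain ⟨z, hz', hz0⟩ := Pool.Agent.H914.exists_top (W := W) hZ.1 hZ.2.1 hB1
  obtain ⟨D, hD⟩ := num_lower A.X B.X hpar (y := y) (Submodule.subset_span
    (Set.mem_iUnion.2 ⟨_, hy⟩)) hy0 (z := z) (Submodule.subset_span
    (Set.mem_iUnion.2 ⟨_, hz'⟩)) hz0
  obtain ⟨C, hC, hC'⟩ := concl (m := m) (h := h) (b := h ^ (m + 1)) (D := D) rfl hh0
    (S := fun n => |(posT W (times ops A.pol B.pol n) : ℝ) - negT W (times ops A.pol B.pol n)|)
    (R := fun n => (posT W (times ops A.pol B.pol n) : ℝ) + negT W (times ops A.pol B.pol n))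
    (bZ := bZ) (Nat.cast_nonneg _) (fun n r => by
      have h1 := hb n r
      have h2 : ((h ^ (m + 1) - 1 : ℕ) : ℝ) = (h : ℝ) ^ (m + 1) - 1 := by
        rw [Nat.cast_sub (Nat.one_le_pow _ _ hh0)]
        push_cast
        rfl
      have h3 : ((h ^ (m + 1) : ℕ) : ℝ) * (((((h ^ (m + 1) : ℕ) : ℝ)) - 1) ^ n *
          ((h : ℝ) ^ r * bZ)) = (((h ^ (m + 1) : ℕ) * ((h ^ (m + 1) - 1) ^ n *
            (h ^ r * bZ)) : ℕ) : ℝ) := by
        push_cast [h2]
        rfl
      rw [h3]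
      exact_mod_cast h1) (fun N => by
      have h1 := h00 N
      exact_mod_cast h1) (fun N => by
      have h1 := hD N
      have h2 := hrk N
      rw [times_X] at h2
      have h3 : (posT W (times ops A.pol B.pol N) : ℝ) + negT W (times ops A.pol B.pol N) =
          rkSum ops (powProd A.pol.X B.pol.X N) := by exact_mod_cast h2.symm
      simp only [h3]
      exact_mod_cast h1) hρ0 (by push_cast; exact hρ)
  exact ⟨C, hC, hC'⟩

/-- Under the standard conjecture of Hodge type there are no negative squares. -/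
lemma negT_zero {P : Polarized 𝒱} (hD : P.X.IsCyc 1 P.D) (h : HodgeNum W P) : negT W P = 0 := by
  rw [negT]
  apply Finset.sum_eq_zero
  intro j hj
  have hj' : 2 * j ≤ P.X.dim := by
    have := Finset.mem_range.1 hj
    omega
  have h0 : negN W P.X P.D j = 0 := by
    apply Nat.le_zero.1
    apply csSup_le'
    rintro r ⟨z, hz, hpos, -⟩
    rcases Nat.eq_zero_or_pos r with h0 | h0
    · exact h0.le
    exfalso
    have h1 := hpos ⟨0, h0⟩
    set y := z ⟨0, h0⟩
    have h2 : Primitive W P.X P.D j y := hz _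
    have h3 : pairing ops P.X P.D j y y < 0 := by linarith
    have h4 := h j hj' y h2 ⟨divPow ops P.D (P.X.dim - 2 * j) y, by
      have := divPow_mem (ops := ops) hD (P.X.dim - 2 * j) h2.1
      rwa [show j + (P.X.dim - 2 * j) = P.X.dim - j by omega] at this, fun h5 => by
      rw [pairing, h5, mul_zero] at h3
      exact lt_irrefl _ h3⟩
    linarith
  rw [h0]
  simp

lemma lef_times {Y Z : Polarized 𝒱} (hY : Y.X.IsCyc 1 Y.D) (hZ : Z.X.IsCyc 1 Z.D) (n : ℕ) :
    (times ops Y Z n).X.IsCyc 1 (times ops Y Z n).D := by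
  induction n with
  | zero => exact hZ
  | succ n ih => exact SmVar.IsCyc.add (ops.pull_mem _ hY) (ops.pull_mem _ ih)

/-- A base smaller than one. -/
lemma exists_base (b m : ℕ) (hb : 0 < b) :
    ∃ ρ : ℝ, 0 < ρ ∧ ρ < 1 ∧ 1 - 1 / (b : ℝ) < ρ ^ (m + 1) := by
  have hb' : (0 : ℝ) < b := by exact_mod_cast hb
  have h2 : ContinuousAt (fun x : ℝ => x ^ (m + 1)) 1 := (continuous_pow (m + 1)).continuousAt
  have h1 : 1 - 1 / (b : ℝ) < (1 : ℝ) ^ (m + 1) := by
    rw [one_pow]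
    have : 0 < 1 / (b : ℝ) := by positivity
    linarith
  have e1 : ∀ᶠ x in nhdsWithin (1 : ℝ) (Set.Iio 1), 1 - 1 / (b : ℝ) < x ^ (m + 1) :=
    (h2.eventually (lt_mem_nhds h1)).filter_mono nhdsWithin_le_nhds
  have e2 : ∀ᶠ x in nhdsWithin (1 : ℝ) (Set.Iio 1), 0 < x :=
    (lt_mem_nhds one_pos).filter_mono nhdsWithin_le_nhds
  have e3 : ∀ᶠ x in nhdsWithin (1 : ℝ) (Set.Iio 1), x < 1 := self_mem_nhdsWithin
  obtain ⟨x, hx1, hx2, hx3⟩ := (e1.and (e2.and e3)).exists
  exact ⟨x, hx2, hx3, hx1⟩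

/-- **The zero-one law.** -/
theorem dichotomy {Y : Polarized 𝒱} (hY : Lef W Y) (hdeg : 0 < topDeg Y ops) :
    (∀ m, HodgeNum W (times ops Y Y m) ∧ negT W (times ops Y Y m) = 0) ∨
      ∃ ρ : ℝ, 0 < ρ ∧ ρ < 1 ∧ ∀ Z, Lef W Z → ∃ C : ℝ, 0 ≤ C ∧ ∀ n,
        |(posT W (times ops Y Z n) : ℝ) - negT W (times ops Y Z n)| ≤
          C * ρ ^ n * (posT W (times ops Y Z n) + negT W (times ops Y Z n)) := by
  by_cases h : ∀ m, HodgeNum W (times ops Y Y m)
  · exact Or.inl fun m => ⟨h m, negT_zero (lef_times hY.1 hY.1 m) (h m)⟩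
  · push Not at h
    obtain ⟨m, hm⟩ := h
    right
    have hh0 : 0 < finrank W.K (W.H Y.X) := by
      apply Module.finrank_pos_iff.2
      refine ⟨1, 0, fun h0 => ?_⟩
      obtain ⟨A, rfl, -⟩ := exists_ob hY
      have h1 := b_one A
      rw [show (1 : W.H A.X) = 0 from h0, map_zero] at h1
      have h2 : (A.X.dim.factorial : ℚ)⁻¹ * topDeg A.pol ops = 0 := by exact_mod_cast h1.symm
      have hδ0 : 0 < (A.X.dim.factorial : ℚ)⁻¹ * topDeg A.pol ops :=
        mul_pos (inv_pos.2 (by exact_mod_cast Nat.factorial_pos _)) hdeg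
      exact hδ0.ne' h2
    obtain ⟨ρ, h0, h1, h2⟩ := exists_base (finrank W.K (W.H Y.X) ^ (m + 1)) m
      (pow_pos hh0 _)
    push_cast at h2
    exact ⟨ρ, h0, h1, fun Z hZ => main_ratio hY hdeg hm hZ h0 h2⟩

end Pool.Agent.U226.SG
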