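import Pool.Agent.U226.SG.Tot

/-!
# Orthogonal families of algebraic classes, with the numbers of positive and negative squares

This is a variant of `Pool.Agent.W539.Ker.Fam` which keeps track of the numbers of positive and of
negative squares, and not only of their difference.
-/

set_option autoImplicit false
set_option linter.unusedSectionVars false

open CategoryTheory AlgebraicGeometry Finset

universe u v

namespace Pool.Agent.U226.SG

open Pool.Agent.H914 Pool.Agent.H914.VarClass Pool.Agent.H914.VarClass.Obj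
  Pool.Agent.H914.WeilCohomology Pool.Agent.H281R3.HT Pool.Agent.W552
open Pool.Agent.W539.Ker

/-- The sum over a maximal orthogonal family. -/
lemma OM_phi {M : Type*} [AddCommGroup M] [Module ℚ M] {B : M →ₗ[ℚ] M →ₗ[ℚ] ℚ}
    (hB : ∀ x y, B x y = B y x) {ι : Type*} [Fintype ι] {x : ι → M} (h : OM B x)
    (φ : SignType → ℤ) : ∑ i, φ (SignType.sign (B (x i) (x i))) =
      posIdx (fun x y => B x y) * φ 1 + posIdx (fun x y => -B x y) * φ (-1) := by
  classical
  have h1 := h.posIdx_eq hB
  have h2 : posIdx (fun x y => -B x y) = (univ.filter (fun i => B (x i) (x i) < 0)).card := by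
    have h3 := h.neg.posIdx_eq (B := -B) (fun x y => by
      rw [LinearMap.neg_apply, LinearMap.neg_apply, LinearMap.neg_apply, LinearMap.neg_apply, hB])
    have h4 : (fun x y => (-B) x y) = fun x y => -B x y := rfl
    rw [h4] at h3
    rw [h3]
    congr 1
    ext i
    rw [Finset.mem_filter, Finset.mem_filter, LinearMap.neg_apply, LinearMap.neg_apply,
      neg_pos]
  rw [h1, h2, Finset.card_filter, Finset.card_filter]
  push_cast
  rw [Finset.sum_mul, Finset.sum_mul, ← Finset.sum_add_distrib]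
  apply Finset.sum_congr rfl
  intro i _
  rcases lt_trichotomy (B (x i) (x i)) 0 with h0 | h0 | h0
  · rw [if_neg (not_lt.2 h0.le), if_pos h0, sign_neg h0]; simp
  · exact absurd h0 (h.ne i)
  · rw [if_pos h0, if_neg (not_lt.2 h0.le), sign_pos h0]; simp

variable {k : Type u} [Field k] {𝒱 : VarClass k} {ops : CycleOps 𝒱}
  {W : WeilCohomology.{u, v} ops} {X Y : 𝒱.Obj} {D : X.Cycles} {f : Module.End W.K (W.H X)}

/-- The largest number of pairwise orthogonal primitive cycles of codimension `n` with positive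
squares. -/
noncomputable def posN (W : WeilCohomology.{u, v} ops) (X : 𝒱.Obj) (D : X.Cycles) (n : ℕ) : ℕ :=
  sSup {r | HasFamily W X D n 1 r}

/-- The largest number of pairwise orthogonal primitive cycles of codimension `n` with negative
squares. -/
noncomputable def negN (W : WeilCohomology.{u, v} ops) (X : 𝒱.Obj) (D : X.Cycles) (n : ℕ) : ℕ :=
  sSup {r | HasFamily W X D n (-1) r}

lemma prim_phi (hD : X.IsCyc 1 D) {n : ℕ} (hn : 2 * n ≤ X.dim) {ι : Type*} [Fintype ι]
    {x : ι → PM W X D n} (h : OM (BP W hD n hn) x) (φ : SignType → ℤ) :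
    ∑ i, φ (SignType.sign (BP W hD n hn (x i) (x i))) =
      posN W X D n * φ 1 + negN W X D n * φ (-1) := by
  rw [OM_phi (BP_symm hD hn) h φ]
  congr 3
  · rw [posN, posIdx]
    congr 1
    ext r
    exact (hasFamily_one hD hn r).symm
  · rw [negN, posIdx]
    congr 1
    ext r
    exact (hasFamily_neg hD hn r).symm

section Form

variable (F : Fr W X D f)

include F

/-- **The signature of the form on the algebraic classes of weight `m`.** -/
theorem exists_fam' (m : ℤ) : ∃ (ι : Type) (_ : Fintype ι) (y : ι → W.H X) (s : ι → ℚ),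
    (∀ i, AS W X (y i)) ∧ (∀ i, wt (W.isInternal X) X.dim (y i) = (m : W.K) • y i) ∧
    (∀ i, s i ≠ 0) ∧ (∀ i, bf W X D f (y i) (y i) = (s i : W.K)) ∧
    (∀ i j, i ≠ j → bf W X D f (y i) (y j) = 0) ∧
    (∀ u, AS W X u → wt (W.isInternal X) X.dim u = (m : W.K) • u →
      (∀ i, bf W X D f u (y i) = 0) → bf W X D f u u = 0) ∧
    ∀ φ : SignType → ℤ, ∑ i, φ (SignType.sign (s i)) =
      wsum X.dim (fun n => posN W X D n * φ 1 + negN W X D n * φ (-1)) m := by
  classical
  have hle : ∀ n : Fin (X.dim / 2 + 1), 2 * (n : ℕ) ≤ X.dim := fun n => by omega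
  choose M x hx using fun n : Fin (X.dim / 2 + 1) => exists_prim W F.hD (hle n)
  set L := LinearMap.mulLeft W.K (W.cl X D) with hL
  let C : Fin (X.dim / 2 + 1) → Prop := fun n => |m| ≤ (X.dim : ℤ) - 2 * (n : ℕ) ∧
    (2 : ℤ) ∣ X.dim + m
  let j : Fin (X.dim / 2 + 1) → ℕ := fun n => ((m + X.dim - 2 * (n : ℕ)) / 2).toNat
  have hj : ∀ n, C n → (2 * (j n : ℤ) = m + X.dim - 2 * (n : ℕ)) ∧ j n ≤ X.dim - 2 * (n : ℕ) := by
    rintro n ⟨h1, h2⟩
    have h3 := abs_le.1 h1
    have h4 := hle n
    have h5 : (2 * (j n : ℤ) = m + X.dim - 2 * (n : ℕ)) := by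
      change 2 * (((m + X.dim - 2 * (n : ℕ)) / 2).toNat : ℤ) = _
      omega
    exact ⟨h5, by omega⟩
  have hpm : ∀ (n : Fin (X.dim / 2 + 1)) (t : Fin (M n)),
      Primitive W X D n (x n t : X.Cycles) := fun n t => (x n t).2
  have hpne : ∀ (n : Fin (X.dim / 2 + 1)) (t : Fin (M n)),
      pairing ops X D n (x n t : X.Cycles) (x n t : X.Cycles) ≠ 0 := by
    intro n t
    have := (hx n).ne t
    rwa [BP_apply] at this
  have hgr : ∀ n : Fin (X.dim / 2 + 1), C n → ∀ z : X.Cycles, Primitive W X D n z → (L ^ (j n)) (W.cl X z) ∈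
      algClasses W X (n + j n) := fun n _ z hz =>
    (ap_alg F).map_L_pow (j n) ⟨z, hz.1, rfl⟩
  have hc : ∀ n, (0 : ℚ) < (j n).factorial * ((X.dim - 2 * (n : ℕ) - j n).factorial : ℚ)⁻¹ := by
    intro n; positivity
  refine ⟨Σ n : {n : Fin (X.dim / 2 + 1) // C n}, Fin (M n.1), inferInstance,
    fun p => (L ^ (j p.1.1)) (W.cl X (x p.1.1 p.2 : X.Cycles)),
    fun p => (j p.1.1).factorial * ((X.dim - 2 * (p.1.1 : ℕ) - j p.1.1).factorial : ℚ)⁻¹ *
      pairing ops X D p.1.1 (x p.1.1 p.2 : X.Cycles) (x p.1.1 p.2 : X.Cycles),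
    ?_, ?_, ?_, ?_, ?_, ?_, ?_⟩
  · rintro ⟨⟨n, hn⟩, t⟩
    exact AS.of (hgr n hn _ (hpm n t))
  · rintro ⟨⟨n, hn⟩, t⟩
    have h1 := alg_gr (hgr n hn _ (hpm n t))
    rw [Fr.wt_gr h1]
    congr 1
    have h2 := (hj n hn).1
    have h3 : ((2 * (j n : ℤ) : ℤ) : W.K) = ((m + X.dim - 2 * (n : ℕ) : ℤ) : W.K) := by rw [h2]
    push_cast at h3 ⊢
    linear_combination h3
  · rintro ⟨⟨n, hn⟩, t⟩
    exact mul_ne_zero (hc n).ne' (hpne n t)
  · rintro ⟨⟨n, hn⟩, t⟩
    exact bf_same F (hle n) (hpm n t) (hpm n t) (hj n hn).2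
  · rintro ⟨⟨n, hn⟩, t⟩ ⟨⟨n', hn'⟩, t'⟩ hne
    by_cases hnn : n = n'
    · subst hnn
      have htt : t ≠ t' := by rintro rfl; exact hne rfl
      have h1 := bf_same F (hle n) (hpm n t) (hpm n t') (hj n hn).2
      have h2 : pairing ops X D n (x n t : X.Cycles) (x n t' : X.Cycles) = 0 := by
        have := (hx n).orth t t' htt
        rwa [BP_apply] at this
      rw [h2, mul_zero, Rat.cast_zero] at h1
      exact h1
    · refine bf_cross F (hle n) (hle n') (fun h => hnn (Fin.ext h)) (hpm n t) (hpm n' t') ?_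
        (hj n' hn').2
      have h1 := (hj n hn).1
      have h2 := (hj n' hn').1
      change (n : ℕ) + j n = (n' : ℕ) + j n'
      omega
  · intro w hw hwm hwy
    rcases AS_wt hw hwm with rfl | ⟨l, hl, hwl⟩
    · simp
    obtain ⟨v, hv, hs⟩ := (ap_alg F).decomp (mulLeft_isHom F.hD) W_hbd hwl
    rw [← hL] at hv hs
    -- the primitive components
    have key : ∀ b ∈ range (l + 1), (L ^ b) (v b) = 0 ∨ ∃ n : Fin (X.dim / 2 + 1),
        (n : ℕ) = l - b ∧ C n ∧ j n = b ∧ ∃ z, Primitive W X D n z ∧ v b = W.cl X z := by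
      intro b hb
      rw [Finset.mem_range] at hb
      obtain ⟨h1, h2, h3⟩ := hv b (by omega)
      by_cases h0 : (L ^ b) (v b) = 0
      · exact Or.inl h0
      right
      have hv0 : v b ≠ 0 := by rintro h; apply h0; rw [h, map_zero]
      have h4 := h2 hv0
      have h5 : b ≤ X.dim - 2 * (l - b) := by
        by_contra h6
        exact h0 (L_pow_gt (n := X.dim) (i := 2 * (l - b)) h3 (by omega))
      obtain ⟨z, hz, hz'⟩ := h1
      have hC : C ⟨l - b, by omega⟩ := by
        refine ⟨abs_le.2 ⟨?_, ?_⟩, ?_⟩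
        · change -((X.dim : ℤ) - 2 * ((l - b : ℕ) : ℤ)) ≤ m
          omega
        · change m ≤ (X.dim : ℤ) - 2 * ((l - b : ℕ) : ℤ)
          omega
        · omega
      refine ⟨⟨l - b, by omega⟩, rfl, hC, ?_, z, ⟨hz, ?_⟩, hz'.symm⟩
      · have h6 := (hj _ hC).1
        change 2 * (j ⟨l - b, _⟩ : ℤ) = m + X.dim - 2 * ((l - b : ℕ) : ℤ) at h6
        omega
      · rw [cl_divPow, hz']; exact h3
    -- orthogonality of the components
    have hcross : ∀ b ∈ range (l + 1), ∀ b' ∈ range (l + 1), b ≠ b' →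
        bf W X D f ((L ^ b) (v b)) ((L ^ b') (v b')) = 0 := by
      intro b hb b' hb' hne
      rcases key b hb with h0 | ⟨n, hn, hC, hjn, z, hz, hvz⟩
      · rw [h0, map_zero, LinearMap.zero_apply]
      rcases key b' hb' with h0 | ⟨n', hn', hC', hjn', z', hz', hvz'⟩
      · rw [h0, map_zero]
      rw [hvz, hvz']
      rw [Finset.mem_range] at hb hb'
      refine bf_cross F (hle n) (hle n') (by omega) hz hz' (by omega) ?_
      rw [← hjn']
      exact (hj n' hC').2
    have hdiag : ∀ b ∈ range (l + 1), bf W X D f ((L ^ b) (v b)) ((L ^ b) (v b)) = 0 := by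
      intro b hb
      rcases key b hb with h0 | ⟨n, hn, hC, hjn, z, hz, hvz⟩
      · rw [h0, map_zero]
      have hbj : b ≤ X.dim - 2 * (n : ℕ) := by rw [← hjn]; exact (hj n hC).2
      have h1 : ∀ t, BP W F.hD n (hle n) ⟨z, hz⟩ (x n t) = 0 := by
        intro t
        have h2 := hwy ⟨⟨n, hC⟩, t⟩
        change bf W X D f w ((L ^ (j n)) (W.cl X (x n t : X.Cycles))) = 0 at h2
        have h3 : bf W X D f w ((L ^ (j n)) (W.cl X (x n t : X.Cycles))) =
            bf W X D f ((L ^ b) (v b)) ((L ^ (j n)) (W.cl X (x n t : X.Cycles))) := by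
          rw [hs, map_sum (bf W X D f), LinearMap.sum_apply, Finset.sum_eq_single b]
          · intro b' hb' hne
            rcases key b' hb' with h0 | ⟨n', hn', hC', hjn', z', hz', hvz'⟩
            · rw [h0, map_zero, LinearMap.zero_apply]
            rw [hvz']
            rw [Finset.mem_range] at hb hb'
            exact bf_cross F (hle n') (hle n) (by omega) hz' (hpm n t) (by omega) (hj n hC).2
          · intro h0; exact absurd hb h0
        rw [h2, hjn, hvz, bf_same F (hle n) hz (hpm n t) hbj] at h3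
        have h4 : (0 : ℚ) = b.factorial * ((X.dim - 2 * (n : ℕ) - b).factorial : ℚ)⁻¹ *
            pairing ops X D n z (x n t : X.Cycles) := by exact_mod_cast h3
        rw [← hjn] at h4
        rcases mul_eq_zero.1 h4.symm with h5 | h5
        · exact absurd h5 (hc n).ne'
        · rw [BP_apply]; exact h5
      have h2 : pairing ops X D n z z = 0 := by
        have := (hx n).max ⟨z, hz⟩ h1
        rwa [BP_apply] at this
      rw [hvz, bf_same F (hle n) hz hz hbj, h2, mul_zero, Rat.cast_zero]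
    have h1 : bf W X D f w w = ∑ b ∈ range (l + 1), ∑ b' ∈ range (l + 1),
        bf W X D f ((L ^ b) (v b)) ((L ^ b') (v b')) := by
      conv_lhs => rw [hs]
      rw [map_sum (bf W X D f), LinearMap.sum_apply]
      apply Finset.sum_congr rfl
      intro b _
      rw [map_sum]
    rw [h1]
    apply Finset.sum_eq_zero
    intro b hb
    apply Finset.sum_eq_zero
    intro b' hb'
    by_cases hbb : b = b'
    · subst hbb; exact hdiag b hb
    · exact hcross b hb b' hb' hbb
  · intro φ
    rw [Fintype.sum_sigma]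
    have h1 : ∀ n : {n : Fin (X.dim / 2 + 1) // C n}, ∑ t : Fin (M n.1),
        φ (SignType.sign ((j n.1).factorial *
          ((X.dim - 2 * (n.1 : ℕ) - j n.1).factorial : ℚ)⁻¹ *
          pairing ops X D n.1 (x n.1 t : X.Cycles) (x n.1 t : X.Cycles))) =
        (posN W X D n.1 * φ 1 + negN W X D n.1 * φ (-1)) := by
      intro n
      rw [← prim_phi F.hD (hle n.1) (hx n.1) φ]
      apply Finset.sum_congr rfl
      intro t _
      rw [sign_mul, sign_pos (hc n.1), one_mul, BP_apply]
    rw [Finset.sum_congr rfl (fun n _ => h1 n), wsum, Finset.sum_range, ← Finset.sum_filter]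
    exact (Finset.sum_subtype (univ.filter C) (by simp)
      (fun n => posN W X D n * φ 1 + negN W X D n * φ (-1))).symm

end Form

end Pool.Agent.U226.SG
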