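import Pool.Agent.Y133.Half.Growth
import Pool.Agent.Y133.Half.DLaw
import Pool.Agent.Y133.Half.Gr0
import Pool.Agent.U226.RG.Cl
import Pool.Agent.W552.AS

/-!
# A lower bound for the rank of the cycles modulo numerical equivalence on the powers
-/

set_option autoImplicit false
set_option linter.unusedSectionVars false

open CategoryTheory AlgebraicGeometry

universe u v

namespace Pool.Agent.U226.SG

open Module
open Pool.Agent.H914 Pool.Agent.H914.VarClass Pool.Agent.H914.VarClass.Obj
  Pool.Agent.H914.WeilCohomology Pool.Agent.H281R3.HT Pool.Agent.W552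
open Pool.Agent.Y133.Half (pw PH xp algSys rho span_perm wb tau_wb exists_hbasis repAlg rep_mem
  repAlg_le rk rk_comp_le finrank_pw xp_mem xp_induction numDim_eq_cycRank cycRank Sys corrL)
open Pool.Agent.N181.Gap (powProd powProd_add Isoc rkSum finrank_H_pow)

section Lin

variable {K M : Type*} [Field K] [CharZero K] [AddCommGroup M] [Module K M]
  [FiniteDimensional K M]

/-- The trace form of a semisimple algebra of operators is nondegenerate. -/
lemma tr_nondeg (R : Subalgebra K (Module.End K M)) [IsSemisimpleRing R] {x : Module.End K M}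
    (hx : x ∈ R) (h : ∀ y ∈ R, LinearMap.trace K M (y * x) = 0) : x = 0 := by
  obtain ⟨e, he, hI⟩ := IsSemisimpleRing.ideal_eq_span_idempotent
    (Ideal.span {(⟨x, hx⟩ : R)} : Ideal R)
  have h1 : e ∈ Ideal.span {(⟨x, hx⟩ : R)} := by
    rw [hI]; exact Ideal.mem_span_singleton_self e
  obtain ⟨y, hy⟩ := Ideal.mem_span_singleton'.1 h1
  have h2 : IsNilpotent (e : Module.End K M) := by
    apply isNilpotent_of_trace_pow
    intro r
    have h3 : (e : Module.End K M) ^ (r + 1) = e := by
      have h4 : e ^ (r + 1) = e := he.pow_succ_eq r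
      have h5 := congrArg Subtype.val h4
      rw [SubmonoidClass.coe_pow] at h5
      exact h5
    rw [h3, ← hy]
    exact h y y.2
  have h3 : (e : Module.End K M) = 0 := by
    obtain ⟨n, hn⟩ := h2
    rcases Nat.eq_zero_or_pos n with rfl | h0
    · rw [pow_zero] at hn
      calc (e : Module.End K M) = e * 1 := (mul_one _).symm
        _ = 0 := by rw [hn, mul_zero]
    · obtain ⟨m, rfl⟩ : ∃ m, n = m + 1 := ⟨n - 1, by omega⟩
      have h4 : e ^ (m + 1) = e := he.pow_succ_eq m
      have h5 := congrArg Subtype.val h4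
      rw [SubmonoidClass.coe_pow] at h5
      exact h5.symm.trans hn
  have h4 : e = 0 := Subtype.ext h3
  have h5 : (⟨x, hx⟩ : R) ∈ Ideal.span {e} := by
    rw [← hI]; exact Ideal.mem_span_singleton_self _
  rw [h4, Ideal.mem_span_singleton'] at h5
  obtain ⟨a, ha⟩ := h5
  rw [mul_zero] at ha
  exact (congrArg Subtype.val ha).symm

end Lin

variable {k : Type u} [Field k] {𝒱 : VarClass k} {ops : CycleOps 𝒱}
  {W : WeilCohomology.{u, v} ops} {X Y Z : 𝒱.Obj}

/-- The parity operator of a product. -/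
lemma par_prod (X Y : 𝒱.Obj) : par (W.isInternal (X.prod Y)) =
    extOp W (par (W.isInternal X)) (par (W.isInternal Y)) := by
  apply ext_kunneth_lin
  intro a b
  rw [extOp_tmul]
  refine gr_induction (W.isInternal X) (p := fun a => par (W.isInternal (X.prod Y))
    (W.map (fst X Y) a * W.map (snd X Y) b) =
      W.map (fst X Y) (par (W.isInternal X) a) * W.map (snd X Y) (par (W.isInternal Y) b)) ?_ ?_ a
  swap
  · intro a a' ha ha'
    rw [map_add, add_mul, map_add, ha, ha', map_add, map_add, add_mul]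
  intro i a ha
  refine gr_induction (W.isInternal Y) (p := fun b => par (W.isInternal (X.prod Y))
    (W.map (fst X Y) a * W.map (snd X Y) b) =
      W.map (fst X Y) (par (W.isInternal X) a) * W.map (snd X Y) (par (W.isInternal Y) b)) ?_ ?_ b
  swap
  · intro b b' hb hb'
    rw [map_add, mul_add, map_add, hb, hb', map_add, map_add, mul_add]
  intro j b hb
  have hm : W.map (fst X Y) a * W.map (snd X Y) b ∈ W.gr (X.prod Y) (i + j) :=
    W.mul_mem (W.map_mem _ ha) (W.map_mem _ hb)
  rw [par, scal_apply _ _ hm, par, scal_apply _ _ ha, par, scal_apply _ _ hb, map_smul, map_smul,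
    smul_mul_smul_comm, pow_add]

lemma par_pw (h : AOp W X X (par (W.isInternal X))) (n : ℕ) :
    AOp W (pw X n) (pw X n) (par (W.isInternal (pw X n))) := by
  induction n with
  | zero => exact h
  | succ n ih =>
    change AOp W ((pw X n).prod X) ((pw X n).prod X) (par (W.isInternal ((pw X n).prod X)))
    rw [par_prod]
    exact ih.ext h

lemma AS_span {x : W.H X} (hx : AS W X x) : x ∈ (algSys W).C X := by
  refine AS.ind (p := fun x => x ∈ (algSys W).C X) ?_ ?_ hx
  · intro j x hx
    exact Submodule.subset_span (Set.mem_iUnion.2 ⟨j, hx⟩)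
  · intro a b ha hb
    exact Submodule.add_mem _ ha hb

/-- **Growth of the numerical ranks.** -/
theorem num_growth (X : 𝒱.Obj) (h : AOp W X X (par (W.isInternal X))) (n : ℕ) :
    finrank W.K (W.H X) ^ (2 * (n + 1)) ≤
      (algSys W).a ((pw X n).prod (pw X n)) * (n + 2) ^ (finrank W.K (W.H X) ^ 2) := by
  classical
  obtain ⟨e, he⟩ := exists_hbasis W X
  have h1 := span_perm (wb e n) (rho W X n) (tau_wb e he n)
  rw [finrank_pw, ← pow_mul, Fintype.card_fin] at h1
  set P := pw X n with hP
  set S := algSys W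
  set R := Submodule.span W.K (Set.range (rho W X n)) with hR
  have hRop : R ≤ S.Op P P := S.span_rho_le X n
  have hRalg : ∀ x ∈ R, x ∈ repAlg (rho W X n) := by
    intro x hx
    have : R ≤ Subalgebra.toSubmodule (repAlg (rho W X n)) := by
      rw [hR, Submodule.span_le]
      rintro _ ⟨σ, rfl⟩
      exact rep_mem _ σ
    exact this hx
  have hpar : par (W.isInternal P) ∈ S.Op P P := by
    obtain ⟨c, hc, hc'⟩ := par_pw h n
    rw [hP, ← hc']
    exact Sys.Op.corr (AS_span hc)
  -- the span of the permutations contains no numerically trivial elements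
  have hdis : R ⊓ S.NOp P P = ⊥ := by
    rw [eq_bot_iff]
    rintro x ⟨hx, hx'⟩
    rw [Submodule.mem_bot]
    apply tr_nondeg (repAlg (rho W X n)) (hRalg x hx)
    intro y hy
    have hyR : y ∈ S.Op P P := hRop (repAlg_le _ hy)
    have h2 : y ∘ₗ x ∈ S.NOp P P := Sys.NOp.comp_left hyR hx'
    have h3 := Sys.NOp.trace h2 hpar
    have h4 := (Sys.Op.ev (Sys.NOp.op h2)).par_comm
    have h5 : par (W.isInternal P) ∘ₗ (y ∘ₗ x) ∘ₗ par (W.isInternal P) = y * x := by
      rw [← LinearMap.comp_assoc, h4, LinearMap.comp_assoc]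
      change (y * x) * (par (W.isInternal P) * par (W.isInternal P)) = y * x
      rw [par_mul_par, mul_one]
    rw [h5] at h3
    exact h3
  have h6 : finrank W.K R + finrank W.K (S.NOp P P) ≤ finrank W.K (S.Op P P) := by
    have h7 := Submodule.finrank_sup_add_finrank_inf_eq R (S.NOp P P)
    rw [hdis, finrank_bot, add_zero] at h7
    rw [← h7]
    apply Submodule.finrank_mono
    apply sup_le hRop
    intro x hx
    exact Sys.NOp.op hx
  have h8 : finrank W.K (S.Op P P) = finrank W.K (S.C (P.prod P)) :=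
    Pool.Agent.U226.RG.finrank_Op S P P
  have h9 : finrank W.K (S.NOp P P) = finrank W.K (S.Num (P.prod P)) := by
    exact (LinearEquiv.finrank_eq (Submodule.equivMapOfInjective _
      Pool.Agent.U226.RG.corrL_injective (S.Num (P.prod P)))).symm
  have h10 := S.a_add_num (P.prod P)
  have h11 : finrank W.K R ≤ S.a (P.prod P) := by omega
  calc finrank W.K (W.H X) ^ (2 * (n + 1)) = finrank W.K (W.H X) ^ ((n + 1) * 2) := by
        rw [mul_comm]
    _ ≤ _ := h1
    _ ≤ _ := Nat.mul_le_mul_right _ h11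

/-- The rank does not decrease under products with a variety with a class of nonzero degree. -/
lemma a_prod_ge {Z : 𝒱.Obj} {p : W.H Z} (hp : p ∈ (algSys W).C Z) (hp0 : W.tr Z p ≠ 0)
    (A : 𝒱.Obj) : (algSys W).a A ≤ (algSys W).a (Z.prod A) := by
  set S := algSys W
  let f : S.C A →ₗ[W.K] S.C (Z.prod A) :=
    ((LinearMap.mulLeft W.K (W.map (fst Z A) (1 : W.H Z))) ∘ₗ
      (W.map (snd Z A)).toLinearMap).restrict
      (fun c hc => S.mul (S.map _ (S.one Z)) (S.map _ hc))
  let g : S.C A →ₗ[W.K] S.C (Z.prod A) :=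
    ((LinearMap.mulLeft W.K (W.map (fst Z A) p)) ∘ₗ
      (W.map (snd Z A)).toLinearMap).restrict
      (fun c hc => S.mul (S.map _ hp) (S.map _ hc))
  have h1 : (S.F (Z.prod A) 1).compl₁₂ f g = W.tr Z p • S.F A 1 := by
    apply LinearMap.ext
    intro c
    apply LinearMap.ext
    intro d
    rw [LinearMap.compl₁₂_apply, LinearMap.smul_apply, LinearMap.smul_apply, Sys.F_apply,
      Sys.F_apply]
    change W.tr _ ((W.map (fst Z A) 1 * W.map (snd Z A) (c : W.H A)) *
      (W.map (fst Z A) p * W.map (snd Z A) (d : W.H A))) = W.tr Z p * W.tr A (c * d)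
    rw [map_one, one_mul, ← mul_assoc, PH.even_comm (PH.map _ (S.even c.2)), mul_assoc,
      ← map_mul, W.tr_prod]
  have h2 := rk_comp_le (S.F (Z.prod A) 1) f g
  rw [h1] at h2
  have h3 : rk (W.tr Z p • S.F A 1) = rk (S.F A 1) := by
    unfold rk
    rw [LinearMap.range_smul _ _ hp0]
  rw [h3] at h2
  exact h2

/-- **The lower bound.** -/
theorem num_lower (Y Z : 𝒱.Obj) (hpar : AOp W Y Y (par (W.isInternal Y)))
    {y : W.H Y} (hy : y ∈ (algSys W).C Y) (hy0 : W.tr Y y ≠ 0)
    {z : W.H Z} (hz : z ∈ (algSys W).C Z) (hz0 : W.tr Z z ≠ 0) :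
    ∃ D : ℕ, ∀ J : ℕ, finrank W.K (W.H Y) ^ J ≤
      D * ((J + 1) ^ D * rkSum ops (powProd Y Z J)) := by
  set S := algSys W
  have ha : ∀ V : 𝒱.Obj, S.a V = rkSum ops V := fun V => numDim_eq_cycRank W V
  set h := finrank W.K (W.H Y) with hh
  have hY1 : (1 : W.H Y) ≠ 0 := by
    intro h0
    apply hy0
    rw [← one_mul y, h0, zero_mul, map_zero]
  have hh0 : 0 < h := by
    rw [hh, Module.finrank_pos_iff]
    exact ⟨1, 0, hY1⟩
  refine ⟨1 + h + h ^ 2, fun J => ?_⟩
  set D := 1 + h + h ^ 2 with hD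
  -- the rank is positive
  have hpos : ∀ J, 1 ≤ rkSum ops (powProd Y Z J) := by
    intro J
    induction J with
    | zero =>
      change 1 ≤ rkSum ops Z
      rw [← ha]
      by_contra h0
      have h1 : S.a Z = 0 := by omega
      have h2 : LinearMap.range (S.F Z 1) = ⊥ := Submodule.finrank_eq_zero.1 h1
      have h3 : S.F Z 1 = 0 := LinearMap.range_eq_bot.1 h2
      apply hz0
      have h4 := congrArg (fun G => G ⟨1, S.one Z⟩ ⟨z, hz⟩) h3
      have h5 : W.tr Z ((1 : W.H Z) * z) = 0 := h4
      rwa [one_mul] at h5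
    | succ J ih =>
      change 1 ≤ rkSum ops (Y.prod (powProd Y Z J))
      rw [← ha] at ih ⊢
      exact ih.trans (a_prod_ge hy hy0 _)
  rcases Nat.lt_or_ge J 2 with hJ | hJ
  · have h1 : h ^ J ≤ h + 1 := by
      interval_cases J
      · rw [pow_zero]; omega
      · rw [pow_one]; omega
    calc h ^ J ≤ D := by rw [hD]; nlinarith
      _ = D * (1 * 1) := by ring
      _ ≤ D * ((J + 1) ^ D * rkSum ops (powProd Y Z J)) := by
          refine Nat.mul_le_mul_left _ (Nat.mul_le_mul ?_ (hpos J))
          exact Nat.one_le_pow _ _ (Nat.succ_pos J)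
  · obtain ⟨n, hn⟩ : ∃ n, J = 2 * (n + 1) ∨ J = 2 * (n + 1) + 1 := ⟨J / 2 - 1, by omega⟩
    set A := (pw Y n).prod (pw Y n) with hA
    have h1 := num_growth Y hpar n
    have h2 : S.a A ≤ rkSum ops (powProd Y Z (n + 1 + (n + 1))) := by
      have h3 := a_prod_ge hz hz0 A
      have h4 : S.a (Z.prod A) = S.a (A.prod Z) := S.a_iso (Pool.Agent.Y133.Half.prodComm Z A)
      have h5 : Isoc (A.prod Z) (powProd Y (powProd Y Z (n + 1)) (n + 1)) :=
        ((Isoc.asc (pw Y n) (pw Y n) Z).trans
          (Isoc.prod (pw Y n) (Pool.Agent.U226.RG.isoc_pw Y Z n))).trans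
          (Pool.Agent.U226.RG.isoc_pw Y (powProd Y Z (n + 1)) n)
      rw [powProd_add] at h5
      have h6 := h5.rkSum W
      rw [← h6, ← ha, ← h4]
      exact h3
    have h7 : rkSum ops (powProd Y Z (n + 1 + (n + 1))) ≤ rkSum ops (powProd Y Z J) := by
      rcases hn with hn | hn
      · rw [hn, two_mul]
      · have h3 := a_prod_ge hy hy0 (powProd Y Z (n + 1 + (n + 1)))
        have h4 : Y.prod (powProd Y Z (n + 1 + (n + 1))) = powProd Y Z J := by
          conv_rhs => rw [show J = (n + 1 + (n + 1)) + 1 by omega]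
          rfl
        rw [h4, ha, ha] at h3
        exact h3
    have h8 : h ^ J ≤ h * h ^ (2 * (n + 1)) := by
      rw [← pow_succ']
      exact Nat.pow_le_pow_right hh0 (by omega)
    have h9 : h ^ J ≤ h * (rkSum ops (powProd Y Z J) * (J + 1) ^ (h ^ 2)) := by
      refine h8.trans (Nat.mul_le_mul_left _ (h1.trans ?_))
      exact Nat.mul_le_mul (h2.trans h7) (Nat.pow_le_pow_left (by omega) _)
    calc h ^ J ≤ h * (rkSum ops (powProd Y Z J) * (J + 1) ^ (h ^ 2)) := h9
      _ = h * ((J + 1) ^ (h ^ 2) * rkSum ops (powProd Y Z J)) := by ring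
      _ ≤ D * ((J + 1) ^ D * rkSum ops (powProd Y Z J)) := by
          refine Nat.mul_le_mul (by omega) (Nat.mul_le_mul_right _ ?_)
          exact Nat.pow_le_pow_right (Nat.succ_pos J) (by omega)

end Pool.Agent.U226.SG
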