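import Pool.Agent.W539.Ker.Inertia

/-!
# Signatures of rational symmetric forms of finite rank
-/

set_option autoImplicit false

open Finset

namespace Pool.Agent.U226.SG

open Pool.Agent.W539.Ker (PosFam posIdx OM exists_OM)

variable {M M' : Type*} [AddCommGroup M] [Module ℚ M] [AddCommGroup M'] [Module ℚ M']

/-- Orthogonal families of anisotropic vectors have at most `N` elements. -/
def Bd (B : M →ₗ[ℚ] M →ₗ[ℚ] ℚ) (N : ℕ) : Prop :=
  ∀ m (x : Fin m → M), (∀ i, B (x i) (x i) ≠ 0) → (∀ i j, i ≠ j → B (x i) (x j) = 0) → m ≤ N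

/-- The signature. -/
noncomputable def sg (B : M →ₗ[ℚ] M →ₗ[ℚ] ℚ) : ℤ :=
  (posIdx (fun x y => B x y) : ℤ) - posIdx (fun x y => -B x y)

lemma Bd.pull {B : M →ₗ[ℚ] M →ₗ[ℚ] ℚ} {N : ℕ} (h : Bd B N) (g : M' →ₗ[ℚ] M) :
    Bd (B.compl₁₂ g g) N := fun m x h1 h2 => h m (fun i => g (x i)) h1 h2

lemma symm_pull {B : M →ₗ[ℚ] M →ₗ[ℚ] ℚ} (h : ∀ x y, B x y = B y x) (g : M' →ₗ[ℚ] M) (x y : M') :
    B.compl₁₂ g g x y = B.compl₁₂ g g y x := h _ _

lemma sg_eq {B : M →ₗ[ℚ] M →ₗ[ℚ] ℚ} (hB : ∀ x y, B x y = B y x) {ι : Type*} [Fintype ι]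
    {x : ι → M} (h : OM B x) :
    sg B = ∑ i, ((SignType.sign (B (x i) (x i)) : SignType) : ℤ) := h.signature_eq hB

/-- The signature is at most the rank. -/
lemma abs_sg_le {B : M →ₗ[ℚ] M →ₗ[ℚ] ℚ} (hB : ∀ x y, B x y = B y x) {N : ℕ} (h : Bd B N) :
    |sg B| ≤ N := by
  obtain ⟨m, x, hx⟩ := exists_OM hB h
  have hm : m ≤ N := h m x hx.ne hx.orth
  rw [sg_eq hB hx]
  refine (Finset.abs_sum_le_sum_abs _ _).trans ?_
  have h1 : ∀ i ∈ (univ : Finset (Fin m)),
      |((SignType.sign (B (x i) (x i)) : SignType) : ℤ)| ≤ 1 := by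
    intro i _
    rcases (SignType.sign (B (x i) (x i))).trichotomy with h | h | h <;> rw [h] <;> decide
  refine (Finset.sum_le_sum h1).trans ?_
  rw [Finset.sum_const, Finset.card_univ, Fintype.card_fin, nsmul_eq_mul, mul_one]
  exact_mod_cast hm

/-- The signature is additive. -/
theorem sg_add {B : M →ₗ[ℚ] M →ₗ[ℚ] ℚ} (hB : ∀ x y, B x y = B y x) {N : ℕ} (hN : Bd B N)
    {g e e' : M →ₗ[ℚ] M} (hg : ∀ x, g x = e x + e' x) (hee : ∀ x, e (e x) = e x)
    (hee' : ∀ x, e' (e' x) = e' x) (h1 : ∀ x, e (e' x) = 0) (h2 : ∀ x, e' (e x) = 0)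
    (hs : ∀ x y, B (e x) y = B x (e y)) (hs' : ∀ x y, B (e' x) y = B x (e' y)) :
    sg (B.compl₁₂ g g) = sg (B.compl₁₂ e e) + sg (B.compl₁₂ e' e') := by
  obtain ⟨m, x, hx⟩ := exists_OM (symm_pull hB e) (hN.pull e)
  obtain ⟨m', y, hy⟩ := exists_OM (symm_pull hB e') (hN.pull e')
  have hc : ∀ a b, B (e a) (e' b) = 0 := fun a b => by rw [hs, h1, map_zero]
  have hc' : ∀ a b, B (e' a) (e b) = 0 := fun a b => by rw [hs', h2, map_zero]
  have hge : ∀ a, g (e a) = e a := fun a => by rw [hg, hee, h2, add_zero]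
  have hge' : ∀ a, g (e' a) = e' a := fun a => by rw [hg, hee', h1, zero_add]
  have hOM : OM (B.compl₁₂ g g) (Sum.elim (fun i => e (x i)) (fun i => e' (y i))) := by
    refine ⟨?_, ?_, ?_⟩
    · rintro (i | i)
      · change B (g (e (x i))) (g (e (x i))) ≠ 0
        rw [hge]; exact hx.ne i
      · change B (g (e' (y i))) (g (e' (y i))) ≠ 0
        rw [hge']; exact hy.ne i
    · rintro (i | i) (j | j) hij
      · change B (g (e (x i))) (g (e (x j))) = 0
        rw [hge, hge]; exact hx.orth i j (fun h => hij (by rw [h]))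
      · change B (g (e (x i))) (g (e' (y j))) = 0
        rw [hge, hge']; exact hc _ _
      · change B (g (e' (y i))) (g (e (x j))) = 0
        rw [hge, hge']; exact hc' _ _
      · change B (g (e' (y i))) (g (e' (y j))) = 0
        rw [hge', hge']; exact hy.orth i j (fun h => hij (by rw [h]))
    · intro u hu
      have k1 : B (e u) (e u) = 0 := hx.max u fun i => by
        have := hu (Sum.inl i)
        change B (g u) (g (e (x i))) = 0 at this
        rw [hge, hg, map_add, LinearMap.add_apply, hc', add_zero] at this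
        exact this
      have k2 : B (e' u) (e' u) = 0 := hy.max u fun i => by
        have := hu (Sum.inr i)
        change B (g u) (g (e' (y i))) = 0 at this
        rw [hge', hg, map_add, LinearMap.add_apply, hc, zero_add] at this
        exact this
      change B (g u) (g u) = 0
      rw [hg, map_add, map_add, LinearMap.add_apply, LinearMap.add_apply, k1, k2, hc, hc']
      ring
  rw [sg_eq (symm_pull hB g) hOM, sg_eq (symm_pull hB e) hx, sg_eq (symm_pull hB e') hy,
    Fintype.sum_sum_type]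
  congr 1
  · apply Finset.sum_congr rfl
    intro i _
    change ((SignType.sign (B (g (e (x i))) (g (e (x i)))) : SignType) : ℤ) = _
    rw [hge]; rfl
  · apply Finset.sum_congr rfl
    intro i _
    change ((SignType.sign (B (g (e' (y i))) (g (e' (y i)))) : SignType) : ℤ) = _
    rw [hge']; rfl

/-- Maps which multiply the forms by positive numbers preserve the index. -/
lemma posIdx_eq_of {β : M → M → ℚ} {β' : M' → M' → ℚ} (φ : M → M') (ψ : M' → M) {c c' : ℚ}
    (hc : 0 < c) (hc' : 0 < c') (h1 : ∀ x y, β' (φ x) (φ y) = c * β x y)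
    (h2 : ∀ x y, β (ψ x) (ψ y) = c' * β' x y) : posIdx β = posIdx β' := by
  unfold posIdx
  congr 1
  ext r
  constructor
  · rintro ⟨z, hz, hz'⟩
    refine ⟨fun i => φ (z i), fun i => ?_, fun i j hij => ?_⟩
    · rw [h1]; exact mul_pos hc (hz i)
    · rw [h1, hz' i j hij, mul_zero]
  · rintro ⟨z, hz, hz'⟩
    refine ⟨fun i => ψ (z i), fun i => ?_, fun i j hij => ?_⟩
    · rw [h2]; exact mul_pos hc' (hz i)
    · rw [h2, hz' i j hij, mul_zero]

/-- Isometries preserve the signature. -/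
lemma sg_iso {B : M →ₗ[ℚ] M →ₗ[ℚ] ℚ} {B' : M' →ₗ[ℚ] M' →ₗ[ℚ] ℚ} (φ : M → M') (ψ : M' → M)
    (h1 : ∀ x y, B' (φ x) (φ y) = B x y) (h2 : ∀ x y, B (ψ x) (ψ y) = B' x y) :
    sg B = sg B' := by
  rw [sg, sg, posIdx_eq_of (β := fun x y => B x y) (β' := fun x y => B' x y) φ ψ one_pos one_pos
      (fun x y => by rw [one_mul, h1]) (fun x y => by rw [one_mul, h2]),
    posIdx_eq_of (β := fun x y => -B x y) (β' := fun x y => -B' x y) φ ψ one_pos one_pos
      (fun x y => by rw [one_mul, h1]) (fun x y => by rw [one_mul, h2])]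

/-- An anti-isometry (up to a positive factor) changes the sign of the signature. -/
theorem sg_anti {B : M →ₗ[ℚ] M →ₗ[ℚ] ℚ} {z z' e f : M →ₗ[ℚ] M} {κ : ℚ} (hκ : 0 < κ)
    (hB : ∀ x y, B x y = B y x)
    (hz : ∀ x y, B (z x) y = B x (z' y)) (h1 : ∀ x, z' (z x) = -(κ • f x))
    (h2 : ∀ x, z (z' x) = -(κ • e x)) (he : ∀ x, e (e x) = e x) (hf : ∀ x, f (f x) = f x) :
    sg (B.compl₁₂ e e) = - sg (B.compl₁₂ f f) := by
  have hκ0 : κ ≠ 0 := hκ.ne'
  have hez : ∀ x, e (z x) = z (f x) := by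
    intro x
    have k1 := h2 (z x)
    rw [h1, map_neg, map_smul] at k1
    exact (smul_right_injective M hκ0 (neg_injective k1)).symm
  have hfz : ∀ x, f (z' x) = z' (e x) := by
    intro x
    have k1 := h1 (z' x)
    rw [h2, map_neg, map_smul] at k1
    exact (smul_right_injective M hκ0 (neg_injective k1)).symm
  have hz' : ∀ x y, B (z' x) y = B x (z y) := by
    intro x y
    rw [hB, ← hz, hB]
  have k1 : ∀ x y, B (e (z x)) (e (z y)) = -(κ * B (f x) (f y)) := by
    intro x y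
    rw [hez, hez, hz, h1, map_neg, map_smul, smul_eq_mul, hf]
  have k2 : ∀ x y, B (f (z' x)) (f (z' y)) = -(κ * B (e x) (e y)) := by
    intro x y
    rw [hfz, hfz, hz', h2, map_neg, map_smul, smul_eq_mul, he]
  rw [sg, sg, posIdx_eq_of (β := fun x y => (B.compl₁₂ e e) x y)
      (β' := fun x y => -(B.compl₁₂ f f) x y) z' z hκ hκ ?_ ?_,
    posIdx_eq_of (β := fun x y => -(B.compl₁₂ e e) x y)
      (β' := fun x y => (B.compl₁₂ f f) x y) z' z hκ hκ ?_ ?_]
  · ring
  · intro x y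
    change B (f (z' x)) (f (z' y)) = κ * -B (e x) (e y)
    rw [k2]; ring
  · intro x y
    change -B (e (z x)) (e (z y)) = κ * B (f x) (f y)
    rw [k1]; ring
  · intro x y
    change -B (f (z' x)) (f (z' y)) = κ * B (e x) (e y)
    rw [k2]; ring
  · intro x y
    change B (e (z x)) (e (z y)) = κ * -B (f x) (f y)
    rw [k1]; ring

end Pool.Agent.U226.SG
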