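import Pool.Agent.U226.SG.Tot

/-!
# Negative classes
-/

set_option autoImplicit false
set_option linter.unusedSectionVars false

open CategoryTheory AlgebraicGeometry Finset

universe u v

namespace Pool.Agent.U226.SG

open Module
open Pool.Agent.H914 Pool.Agent.H914.VarClass Pool.Agent.H914.VarClass.Obj
  Pool.Agent.H914.WeilCohomology Pool.Agent.H281R3.HT Pool.Agent.W552
open Pool.Agent.W539.Ker (Gd)
open Pool.Agent.Y133.Half (xp θ₃ finrank_extOp prod_hom_ext)
open Pool.Agent.Y133.Half.Sys (finrank_compl finrank_range_pos)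

variable {k : Type u} [Field k] {𝒱 : VarClass k} {ops : CycleOps 𝒱}
  {W : WeilCohomology.{u, v} ops} {X Y Z : 𝒱.Obj}

/-- An algebraic class with negative square gives an anti-isometry. -/
lemma anti_of (Q : Ob W) {c : W.H Q.X} (hc : AS W Q.X c) {γ δ : ℚ} (hγ : γ < 0) (hδ : 0 < δ)
    (h1 : Q.b c c = γ) (h2 : Q.b 1 1 = δ) :
    Anti Q (((γ⁻¹ : ℚ) : W.K) • rko Q c c) (((δ⁻¹ : ℚ) : W.K) • rko Q 1 1) (rko Q 1 c)
      (rko Q c 1) (-(γ * δ)) where
  pos := by nlinarith
  ea := (rko_aop Q hc hc).smul _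
  fa := (rko_aop Q AS.one AS.one).smul _
  za := rko_aop Q AS.one hc
  za' := rko_aop Q hc AS.one
  ee := by
    have hγ0 : (γ : W.K) ≠ 0 := by exact_mod_cast hγ.ne
    rw [smul_mul_smul_comm, rko_mul, h1, smul_smul]
    congr 1
    push_cast
    field_simp
  ff := by
    have hδ0 : (δ : W.K) ≠ 0 := by exact_mod_cast hδ.ne'
    rw [smul_mul_smul_comm, rko_mul, h2, smul_smul]
    congr 1
    push_cast
    field_simp
  es := (rko_ad Q hc hc).smul _
  fs := (rko_ad Q AS.one AS.one).smul _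
  zs := rko_ad Q AS.one hc
  h1 := by
    have hδ0 : (δ : W.K) ≠ 0 := by exact_mod_cast hδ.ne'
    rw [rko_mul, h1, smul_smul]
    congr 1
    push_cast
    field_simp
  h2 := by
    have hγ0 : (γ : W.K) ≠ 0 := by exact_mod_cast hγ.ne
    rw [rko_mul, h2, smul_smul]
    congr 1
    push_cast
    field_simp

lemma rank_compl {Q : Ob W} {e : Module.End W.K (W.H Q.X)} (he : e * e = e) (h0 : e ≠ 0) :
    finrank W.K (LinearMap.range (1 - e)) ≤ finrank W.K (W.H Q.X) - 1 := by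
  have h1 := (finrank_compl (W := W) (P := Q.X) he).2
  have h2 := finrank_range_pos (W := W) (P := Q.X) h0
  omega

/-- **The bound for the signature on products with powers of a variety with a negative class.** -/
theorem bound_neg (Q : Ob W) {c : W.H Q.X} (hc : AS W Q.X c) {γ δ : ℚ} (hγ : γ < 0) (hδ : 0 < δ)
    (h1 : Q.b c c = γ) (h2 : Q.b 1 1 = δ) (Z : Ob W) (n : ℕ) :
    |Sg (it Q Z (n + 1)) 1| ≤ finrank W.K (W.H Q.X) *
      ((finrank W.K (W.H Q.X) - 1) ^ n * finrank W.K (W.H Z.X) : ℕ) := by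
  have hA := anti_of Q hc hγ hδ h1 h2
  have hγ0 : (γ : W.K) ≠ 0 := by exact_mod_cast hγ.ne
  have hδ0 : (δ : W.K) ≠ 0 := by exact_mod_cast hδ.ne'
  have he0 : ((γ⁻¹ : ℚ) : W.K) • rko Q c c ≠ 0 := by
    intro h
    have h3 := congrArg (fun F => Q.b (F c) c) h
    change Q.b (((γ⁻¹ : ℚ) : W.K) • (Q.b c c • c)) c = Q.b 0 c at h3
    rw [h1, map_smul, map_smul, map_zero, LinearMap.smul_apply, LinearMap.smul_apply,
      LinearMap.zero_apply, h1, smul_eq_mul, smul_eq_mul] at h3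
    push_cast at h3
    field_simp at h3
    exact hγ0 h3
  have hf0 : ((δ⁻¹ : ℚ) : W.K) • rko Q 1 1 ≠ 0 := by
    intro h
    have h3 := congrArg (fun F => Q.b (F 1) 1) h
    change Q.b (((δ⁻¹ : ℚ) : W.K) • (Q.b 1 1 • 1)) 1 = Q.b 0 1 at h3
    rw [h2, map_smul, map_smul, map_zero, LinearMap.smul_apply, LinearMap.smul_apply,
      LinearMap.zero_apply, h2, smul_eq_mul, smul_eq_mul] at h3
    push_cast at h3
    field_simp at h3
    exact hδ0 h3
  have h3 := bound hA (rank_compl hA.ee he0) (rank_compl hA.ff hf0) Z n Q 1 AOp.one (one_mul 1)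
    (Ad.one Q)
  rw [range_one, extOp_one] at h3
  exact h3

/-- The star operator is surjective on the algebraic classes. -/
lemma st_surj (A : Ob W) {y : W.H A.X} (hy : AS W A.X y) :
    ∃ x, AS W A.X x ∧ st W A.X A.D A.f x = y := by
  let _ : Module ℚ (Module.End W.K (W.H A.X)) :=
    Module.compHom (Module.End W.K (W.H A.X)) (algebraMap ℚ W.K)
  set L := LinearMap.mulLeft W.K (W.cl A.X A.D) with hL
  have hLn : IsNilpotent L := A.fr.sl2.nil_e
  have hfn : IsNilpotent A.f := A.fr.sl2.nil_f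
  have hw' : AOp W A.X A.X (wey (-L) (-A.f)) :=
    AOp.wey (AOp.ratSub.neg A.fr.Lop) (AOp.ratSub.neg A.fr.aop) hLn.neg hfn.neg
  have hinv : wey L A.f * wey (-L) (-A.f) = 1 := by
    change weyl L A.f * weyl (-L) (-A.f) = 1
    rw [weyl, weyl, neg_neg]
    calc IsNilpotent.exp L * IsNilpotent.exp (-A.f) * IsNilpotent.exp L *
          (IsNilpotent.exp (-L) * IsNilpotent.exp A.f * IsNilpotent.exp (-L)) =
        IsNilpotent.exp L * IsNilpotent.exp (-A.f) *
          (IsNilpotent.exp L * IsNilpotent.exp (-L)) *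
            (IsNilpotent.exp A.f * IsNilpotent.exp (-L)) := by noncomm_ring
      _ = IsNilpotent.exp L * (IsNilpotent.exp (-A.f) * IsNilpotent.exp A.f) *
            IsNilpotent.exp (-L) := by
          rw [IsNilpotent.exp_mul_exp_neg_self hLn]
          noncomm_ring
      _ = 1 := by
          rw [IsNilpotent.exp_neg_mul_exp_self hfn, mul_one,
            IsNilpotent.exp_mul_exp_neg_self hLn]
  set x₀ := wey (-L) (-A.f) y with hx₀
  have hx₀A : AS W A.X x₀ := hw'.apply hy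
  refine ⟨∑ j ∈ Finset.range (A.X.dim + 1), ((Pool.Agent.W552.sg (2 * j) : ℚ) : W.K) •
    proj (W.isInternal A.X) (2 * j) x₀, ?_, ?_⟩
  · apply AS.ratSub.sum
    intro j _
    exact (AS.of (hx₀A.proj j)).smul _
  · rw [map_sum]
    have h1 : ∀ j, st W A.X A.D A.f (((Pool.Agent.W552.sg (2 * j) : ℚ) : W.K) •
        proj (W.isInternal A.X) (2 * j) x₀) =
        wop W A.X A.D A.f (proj (W.isInternal A.X) (2 * j) x₀) := by
      intro j
      rw [map_smul, st_apply (proj_mem _ _ _), smul_smul]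
      have h2 : ((Pool.Agent.W552.sg (2 * j) : ℚ) : W.K) * (Pool.Agent.W552.sg (2 * j) : W.K) = 1 := by
        have h3 : (Pool.Agent.W552.sg (2 * j) : ℤ) * Pool.Agent.W552.sg (2 * j) = 1 := sg_sq _
        have h4 := congrArg (Int.cast (R := W.K)) h3
        push_cast at h4 ⊢
        exact h4
      rw [h2, one_smul]
    rw [Finset.sum_congr rfl (fun j _ => h1 j), ← map_sum, ← Fr.AS_sum hx₀A, hx₀]
    exact congrArg (fun F => F y) hinv

/-- A primitive class which is not numerically trivial and has nonpositive square gives an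
algebraic class with negative square. -/
lemma exists_neg (A : Ob W) {j : ℕ} (hj : 2 * j ≤ A.X.dim) {z : A.X.Cycles}
    (hz : A.X.IsCyc j z) (hprim : W.cl A.X (divPow ops A.D (A.X.dim - 2 * j + 1) z) = 0)
    {w : A.X.Cycles} (hw : A.X.IsCyc (A.X.dim - j) w)
    (hzw : A.X.V.degCycle (ops.mul z w) ≠ 0)
    (hle : (-1 : ℚ) ^ j * A.X.V.degCycle (ops.mul z (divPow ops A.D (A.X.dim - 2 * j) z)) ≤ 0) :
    ∃ (c : W.H A.X) (γ : ℚ), AS W A.X c ∧ γ < 0 ∧ A.b c c = γ := by
  have h1 := A.fr.form_prim hj hz hprim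
  set d := A.X.V.degCycle (ops.mul z (divPow ops A.D (A.X.dim - 2 * j) z)) with hd
  have hfac : (0 : ℚ) < ((A.X.dim - 2 * j).factorial : ℚ)⁻¹ := by positivity
  have h1' : A.b (W.cl A.X z) (W.cl A.X z) =
      (((-1 : ℚ) ^ j * (((A.X.dim - 2 * j).factorial : ℚ)⁻¹ * d) : ℚ) : W.K) := by
    have : A.b (W.cl A.X z) (W.cl A.X z) = bf W A.X A.D A.f (W.cl A.X z) (W.cl A.X z) := rfl
    rw [this, h1]
  rcases hle.lt_or_eq with hlt | heq
  · refine ⟨W.cl A.X z, _, AS.of ⟨z, hz, rfl⟩, ?_, h1'⟩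
    calc (-1 : ℚ) ^ j * (((A.X.dim - 2 * j).factorial : ℚ)⁻¹ * d) =
        ((A.X.dim - 2 * j).factorial : ℚ)⁻¹ * ((-1 : ℚ) ^ j * d) := by ring
      _ < 0 := mul_neg_of_pos_of_neg hfac hlt
  · have h2 : A.b (W.cl A.X z) (W.cl A.X z) = 0 := by
      rw [h1']
      have : (-1 : ℚ) ^ j * (((A.X.dim - 2 * j).factorial : ℚ)⁻¹ * d) = 0 := by
        calc (-1 : ℚ) ^ j * (((A.X.dim - 2 * j).factorial : ℚ)⁻¹ * d) =
            ((A.X.dim - 2 * j).factorial : ℚ)⁻¹ * ((-1 : ℚ) ^ j * d) := by ring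
          _ = 0 := by rw [heq, mul_zero]
      rw [this, Rat.cast_zero]
    have hwA : AS W A.X (W.cl A.X w) := AS.of ⟨w, hw, rfl⟩
    have hzA : AS W A.X (W.cl A.X z) := AS.of ⟨z, hz, rfl⟩
    obtain ⟨x, hx, hxw⟩ := st_surj A hwA
    set η := A.X.V.degCycle (ops.mul z w) with hη
    have h3 : A.b (W.cl A.X z) x = (η : W.K) := by
      change W.tr A.X (W.cl A.X z * st W A.X A.D A.f x) = _
      rw [hxw, ← W.cl_mul, W.tr_cl]
      have := ops.mul_mem hz hw
      rwa [show j + (A.X.dim - j) = A.X.dim by omega] at this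
    have h4 : A.b x (W.cl A.X z) = (η : W.K) := by rw [A.b_symm hzA, h3]
    obtain ⟨q, hq⟩ := A.fr.bf_rat hx hx
    have hq' : A.b x x = (q : W.K) := hq
    set t : ℚ := -(q + 1) / (2 * η) with ht
    refine ⟨x + (t : W.K) • W.cl A.X z, -1, hx.add (hzA.smul t), by norm_num, ?_⟩
    rw [map_add, map_add, LinearMap.add_apply, LinearMap.add_apply, map_smul, map_smul,
      LinearMap.smul_apply, LinearMap.smul_apply, map_smul, hq', h4, h3, h2]
    have hη0 : (η : W.K) ≠ 0 := by exact_mod_cast hzw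
    rw [ht]
    push_cast
    simp only [smul_eq_mul, mul_zero, add_zero]
    field_simp
    ring

end Pool.Agent.U226.SG
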