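import Pool.Agent.W539.Ker.Final
import Pool.Agent.Y133.Half.CS
import Pool.Agent.U226.SG.Inert

/-!
# The rational form on the algebraic classes, and signatures of its restrictions
-/

set_option autoImplicit false
set_option linter.unusedSectionVars false

open CategoryTheory AlgebraicGeometry Finset

universe u v

namespace Pool.Agent.U226.SG

open Module
open Pool.Agent.H914 Pool.Agent.H914.VarClass Pool.Agent.H914.VarClass.Obj
  Pool.Agent.H914.WeilCohomology Pool.Agent.H281R3.HT Pool.Agent.W552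
open Pool.Agent.W539.Ker (PosFam posIdx OM exists_OM Gd)
open Pool.Agent.Y133.Half (xp θ₃ θ₃_xp θ₃_op finrank_extOp)

variable {k : Type u} [Field k] {𝒱 : VarClass k} {ops : CycleOps 𝒱}
  {W : WeilCohomology.{u, v} ops} {X Y Z : 𝒱.Obj}

/-- A polarized variety with an algebraic lowering operator. -/
structure Ob (W : WeilCohomology.{u, v} ops) where
  /-- the variety -/
  X : 𝒱.Obj
  /-- the divisor -/
  D : X.Cycles
  /-- the lowering operator -/
  f : Module.End W.K (W.H X)
  fr : Fr W X D f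
  sy : Sy W X D f

/-- The form. -/
noncomputable def Ob.b (A : Ob W) : W.H A.X →ₗ[W.K] W.H A.X →ₗ[W.K] W.K := bf W A.X A.D A.f

/-- The product. -/
@[reducible] noncomputable def Ob.prod (A B : Ob W) : Ob W where
  X := A.X.prod B.X
  D := ops.pull (fst A.X B.X) A.D + ops.pull (snd A.X B.X) B.D
  f := extSum W A.f B.f
  fr := A.fr.prod B.fr
  sy := A.sy.prod A.fr B.fr B.sy

lemma Ob.b_ext (A B : Ob W) (a a' : W.H A.X) (b b' : W.H B.X) :
    (A.prod B).b (ext W a b) (ext W a' b') = A.b a a' * B.b b b' := A.fr.bf_ext B.fr a a' b b'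

/-- The algebraic classes. -/
noncomputable def AM (W : WeilCohomology.{u, v} ops) (X : 𝒱.Obj) : AddSubgroup (W.H X) where
  carrier := {x | AS W X x}
  zero_mem' := AS.zero
  add_mem' := fun h h' => AS.add h h'
  neg_mem' := fun {x} h => by
    have := AS.smul (-1) h
    simpa using this

noncomputable instance instAM : Module ℚ (AM W X) where
  smul q x := ⟨(q : W.K) • x.1, AS.smul q x.2⟩
  one_smul x := Subtype.ext (by change ((1 : ℚ) : W.K) • x.1 = x.1; rw [Rat.cast_one, one_smul])
  mul_smul q r x := Subtype.ext (by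
    change ((q * r : ℚ) : W.K) • x.1 = (q : W.K) • (r : W.K) • x.1
    rw [Rat.cast_mul, mul_smul])
  smul_zero q := Subtype.ext (by change (q : W.K) • (0 : W.H X) = 0; rw [smul_zero])
  smul_add q x y := Subtype.ext (by
    change (q : W.K) • (x.1 + y.1) = (q : W.K) • x.1 + (q : W.K) • y.1
    rw [smul_add])
  add_smul q r x := Subtype.ext (by
    change ((q + r : ℚ) : W.K) • x.1 = (q : W.K) • x.1 + (r : W.K) • x.1
    rw [Rat.cast_add, add_smul])
  zero_smul x := Subtype.ext (by change ((0 : ℚ) : W.K) • x.1 = 0; rw [Rat.cast_zero, zero_smul])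

lemma AM.smul_val (q : ℚ) (x : AM W X) : ((q • x : AM W X) : W.H X) = (q : W.K) • (x : W.H X) :=
  rfl

lemma AM.add_val (x y : AM W X) : ((x + y : AM W X) : W.H X) = (x : W.H X) + (y : W.H X) :=
  rfl

/-- The values of the form. -/
noncomputable def qv (A : Ob W) (x y : AM W A.X) : ℚ := (A.fr.bf_rat x.2 y.2).choose

lemma qv_spec (A : Ob W) (x y : AM W A.X) : ((qv A x y : ℚ) : W.K) = A.b x y :=
  (A.fr.bf_rat x.2 y.2).choose_spec.symm

/-- The rational form. -/
noncomputable def qf (A : Ob W) : AM W A.X →ₗ[ℚ] AM W A.X →ₗ[ℚ] ℚ :=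
  LinearMap.mk₂ ℚ (qv A)
    (fun x x' y => by
      have h1 : ((qv A (x + x') y : ℚ) : W.K) = ((qv A x y + qv A x' y : ℚ) : W.K) := by
        rw [Rat.cast_add, qv_spec, qv_spec, qv_spec, AM.add_val, map_add, LinearMap.add_apply]
      exact_mod_cast h1)
    (fun c x y => by
      have h1 : ((qv A (c • x) y : ℚ) : W.K) = ((c • qv A x y : ℚ) : W.K) := by
        rw [smul_eq_mul, Rat.cast_mul, qv_spec, qv_spec, AM.smul_val, map_smul,
          LinearMap.smul_apply, smul_eq_mul]
      exact_mod_cast h1)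
    (fun x y y' => by
      have h1 : ((qv A x (y + y') : ℚ) : W.K) = ((qv A x y + qv A x y' : ℚ) : W.K) := by
        rw [Rat.cast_add, qv_spec, qv_spec, qv_spec, AM.add_val, map_add]
      exact_mod_cast h1)
    (fun c x y => by
      have h1 : ((qv A x (c • y) : ℚ) : W.K) = ((c • qv A x y : ℚ) : W.K) := by
        rw [smul_eq_mul, Rat.cast_mul, qv_spec, qv_spec, AM.smul_val, map_smul, smul_eq_mul]
      exact_mod_cast h1)

lemma qf_cast (A : Ob W) (x y : AM W A.X) : ((qf A x y : ℚ) : W.K) = A.b x y :=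
  qv_spec A x y

lemma par_AS {x : W.H X} (hx : AS W X x) : par (W.isInternal X) x = x := by
  refine AS.ind (p := fun y => par (W.isInternal X) y = y) ?_ ?_ hx
  · intro j y hy
    rw [par, scal_apply _ _ (alg_gr hy), pow_mul]
    simp
  · intro y y' hy hy'
    rw [map_add, hy, hy']

/-- The form is symmetric if one of the arguments is algebraic. -/
lemma Ob.b_symm (A : Ob W) {c : W.H A.X} (hc : AS W A.X c) (x : W.H A.X) :
    A.b x c = A.b c x := by
  have h := A.sy x c
  rw [par_AS hc] at h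
  exact h

lemma qf_symm (A : Ob W) (x y : AM W A.X) : qf A x y = qf A y x := by
  have h : ((qf A x y : ℚ) : W.K) = ((qf A y x : ℚ) : W.K) := by
    rw [qf_cast, qf_cast, A.b_symm y.2]
  exact_mod_cast h

/-- Linear maps preserving the algebraic classes. -/
def Pr (W : WeilCohomology.{u, v} ops) {X Y : 𝒱.Obj} (u : W.H X →ₗ[W.K] W.H Y) : Prop :=
  ∀ x, AS W X x → AS W Y (u x)

lemma Pr.of {u : W.H X →ₗ[W.K] W.H Y} (h : AOp W X Y u) : Pr W u := fun _ hx => h.apply hx

/-- The restriction to the algebraic classes. -/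
noncomputable def resM (u : W.H X →ₗ[W.K] W.H Y) (h : Pr W u) : AM W X →ₗ[ℚ] AM W Y where
  toFun x := ⟨u x.1, h _ x.2⟩
  map_add' x y := Subtype.ext (map_add u _ _)
  map_smul' q x := Subtype.ext (map_smul u _ _)

open Classical in
/-- The signature of the form on the image of an operator. -/
noncomputable def Sg (A : Ob W) (u : Module.End W.K (W.H A.X)) : ℤ :=
  if h : Pr W u then sg ((qf A).compl₁₂ (resM u h) (resM u h)) else 0

lemma Sg_of {A : Ob W} {u : Module.End W.K (W.H A.X)} (h : Pr W u) :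
    Sg A u = sg ((qf A).compl₁₂ (resM u h) (resM u h)) := dif_pos h

/-- Boundedness by the rank of the operator. -/
lemma Bd_of (A : Ob W) {u : Module.End W.K (W.H A.X)} (h : Pr W u) :
    Bd ((qf A).compl₁₂ (resM u h) (resM u h)) (finrank W.K (LinearMap.range u)) := by
  intro m x h1 h2
  have hli : LinearIndependent W.K
      (fun i : Fin m => (⟨u (x i).1, ⟨_, rfl⟩⟩ : LinearMap.range u)) := by
    rw [Fintype.linearIndependent_iff]
    intro c hc j
    have hc' : ∑ i, c i • u (x i).1 = 0 := by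
      have := congrArg Subtype.val hc
      rw [AddSubmonoidClass.coe_finsetSum] at this
      exact this
    have h3 : A.b (∑ i, c i • u (x i).1) (u (x j).1) = 0 := by
      rw [hc', map_zero, LinearMap.zero_apply]
    rw [map_sum, LinearMap.sum_apply, Finset.sum_eq_single j] at h3
    · rw [map_smul, LinearMap.smul_apply, smul_eq_mul] at h3
      rcases mul_eq_zero.1 h3 with h4 | h4
      · exact h4
      · exfalso
        apply h1 j
        have h5 := qf_cast A (resM u h (x j)) (resM u h (x j))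
        have h6 : ((qf A (resM u h (x j)) (resM u h (x j)) : ℚ) : W.K) = 0 := h5.trans h4
        exact_mod_cast h6
    · intro i _ hi
      rw [map_smul, LinearMap.smul_apply, smul_eq_mul]
      have h5 := qf_cast A (resM u h (x i)) (resM u h (x j))
      have h6 := h2 i j hi
      change (qf A (resM u h (x i)) (resM u h (x j))) = 0 at h6
      rw [h6, Rat.cast_zero] at h5
      have h7 : A.b (u (x i).1) (u (x j).1) = 0 := h5.symm
      rw [h7, mul_zero]
    · intro h0; exact absurd (Finset.mem_univ _) h0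
  have := hli.fintype_card_le_finrank
  rwa [Fintype.card_fin] at this

lemma Pr.one : Pr W (1 : Module.End W.K (W.H X)) := fun _ hx => hx

lemma exists_bd (A : Ob W) : Bd (qf A) (finrank W.K (LinearMap.range
    (1 : Module.End W.K (W.H A.X)))) := Bd_of A Pr.one

lemma Sg_le (A : Ob W) {u : Module.End W.K (W.H A.X)} (h : Pr W u) :
    |Sg A u| ≤ finrank W.K (LinearMap.range u) := by
  rw [Sg_of h]
  exact abs_sg_le (symm_pull (qf_symm A) _) (Bd_of A h)

/-- The operators `u` and `u'` are adjoint. -/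
def Ad (A : Ob W) (u u' : Module.End W.K (W.H A.X)) : Prop := ∀ x y, A.b (u x) y = A.b x (u' y)

lemma Ad.qf {A : Ob W} {u u' : Module.End W.K (W.H A.X)} (h : Ad A u u') (hu : Pr W u)
    (hu' : Pr W u') (x y : AM W A.X) : qf A (resM u hu x) y = SG.qf A x (resM u' hu' y) := by
  have h1 : ((SG.qf A (resM u hu x) y : ℚ) : W.K) = ((SG.qf A x (resM u' hu' y) : ℚ) : W.K) := by
    rw [qf_cast, qf_cast]
    exact h _ _
  exact_mod_cast h1

/-- Additivity. -/
theorem Sg_add {A : Ob W} {g e e' : Module.End W.K (W.H A.X)} (he : Pr W e) (he' : Pr W e')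
    (hg : g = e + e') (hee : e * e = e) (hee' : e' * e' = e') (h1 : e * e' = 0)
    (h2 : e' * e = 0) (hs : Ad A e e) (hs' : Ad A e' e') : Sg A g = Sg A e + Sg A e' := by
  have hgP : Pr W g := by
    intro x hx
    rw [hg]
    exact (he x hx).add (he' x hx)
  rw [Sg_of hgP, Sg_of he, Sg_of he']
  refine sg_add (qf_symm A) (exists_bd A) ?_ ?_ ?_ ?_ ?_ (hs.qf he he) (hs'.qf he' he')
  · intro x
    apply Subtype.ext
    change g x.1 = e x.1 + e' x.1
    rw [hg]; rfl
  · intro x; exact Subtype.ext (congrArg (fun F => F x.1) hee)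
  · intro x; exact Subtype.ext (congrArg (fun F => F x.1) hee')
  · intro x; exact Subtype.ext (congrArg (fun F => F x.1) h1)
  · intro x; exact Subtype.ext (congrArg (fun F => F x.1) h2)

/-- Anti-isometries. -/
theorem Sg_anti {A : Ob W} {z z' e f : Module.End W.K (W.H A.X)} {κ : ℚ} (hκ : 0 < κ)
    (hz : Pr W z) (hz' : Pr W z') (he : Pr W e) (hf : Pr W f) (had : Ad A z z')
    (h1 : z' * z = ((-κ : ℚ) : W.K) • f) (h2 : z * z' = ((-κ : ℚ) : W.K) • e) (hee : e * e = e)
    (hff : f * f = f) : Sg A e = - Sg A f := by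
  rw [Sg_of he, Sg_of hf]
  refine sg_anti hκ (qf_symm A) (z := resM z hz) (z' := resM z' hz') (had.qf hz hz') ?_ ?_ ?_ ?_
  · intro x
    rw [← neg_smul]
    exact Subtype.ext (congrArg (fun F => F x.1) h1)
  · intro x
    rw [← neg_smul]
    exact Subtype.ext (congrArg (fun F => F x.1) h2)
  · intro x; exact Subtype.ext (congrArg (fun F => F x.1) hee)
  · intro x; exact Subtype.ext (congrArg (fun F => F x.1) hff)

/-- Invariance under isomorphisms. -/
lemma Sg_iso {A B : Ob W} (θ : A.X ≅ B.X) (h : ∀ x y, A.b (W.map θ.hom x) (W.map θ.hom y) = B.b x y)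
    {u : Module.End W.K (W.H A.X)} {w : Module.End W.K (W.H B.X)}
    (huw : ∀ x, u (W.map θ.hom x) = W.map θ.hom (w x)) (hu : Pr W u) : Sg A u = Sg B w := by
  have hinv : ∀ x : W.H A.X, W.map θ.hom (W.map θ.inv x) = x := by
    intro x
    rw [← W.map_comp, θ.hom_inv_id, W.map_id]
  have hinv' : ∀ x : W.H B.X, W.map θ.inv (W.map θ.hom x) = x := by
    intro x
    rw [← W.map_comp, θ.inv_hom_id, W.map_id]
  have hw : Pr W w := by
    intro x hx
    have h1 := hu _ (hx.map θ.hom)
    rw [huw] at h1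
    have h2 := h1.map θ.inv
    rwa [hinv'] at h2
  rw [Sg_of hu, Sg_of hw]
  symm
  refine sg_iso (fun x => ⟨W.map θ.hom x.1, x.2.map _⟩) (fun x => ⟨W.map θ.inv x.1, x.2.map _⟩)
    ?_ ?_
  · intro x y
    have h1 : ((SG.qf A (resM u hu ⟨W.map θ.hom x.1, x.2.map _⟩)
        (resM u hu ⟨W.map θ.hom y.1, y.2.map _⟩) : ℚ) : W.K) =
        ((SG.qf B (resM w hw x) (resM w hw y) : ℚ) : W.K) := by
      rw [qf_cast, qf_cast]
      change A.b (u (W.map θ.hom x.1)) (u (W.map θ.hom y.1)) = B.b (w x.1) (w y.1)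
      rw [huw, huw, h]
    exact_mod_cast h1
  · intro x y
    have h1 : ((SG.qf B (resM w hw ⟨W.map θ.inv x.1, x.2.map _⟩)
        (resM w hw ⟨W.map θ.inv y.1, y.2.map _⟩) : ℚ) : W.K) =
        ((SG.qf A (resM u hu x) (resM u hu y) : ℚ) : W.K) := by
      rw [qf_cast, qf_cast]
      change B.b (w (W.map θ.inv x.1)) (w (W.map θ.inv y.1)) = A.b (u x.1) (u y.1)
      rw [← h, ← huw, ← huw, hinv, hinv]
    exact_mod_cast h1

end Pool.Agent.U226.SG
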