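import Pool.Agent.U226.SG.Ob
import Pool.Agent.Y133.Half.Chain

/-!
# The signatures on the products with the powers of a variety with a negative class
-/

set_option autoImplicit false
set_option linter.unusedSectionVars false

open CategoryTheory AlgebraicGeometry Finset

universe u v

namespace Pool.Agent.U226.SG

open Module
open Pool.Agent.H914 Pool.Agent.H914.VarClass Pool.Agent.H914.VarClass.Obj
  Pool.Agent.H914.WeilCohomology Pool.Agent.H281R3.HT Pool.Agent.W552
open Pool.Agent.W539.Ker (PosFam posIdx OM exists_OM Gd)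
open Pool.Agent.Y133.Half (xp θ₃ θ₃_xp θ₃_op finrank_extOp xpL_ext PH)
open Pool.Agent.Y133.Half.Sys (finrank_compl)

variable {k : Type u} [Field k] {𝒱 : VarClass k} {ops : CycleOps 𝒱}
  {W : WeilCohomology.{u, v} ops} {X Y Z : 𝒱.Obj}

/-- Rank one operators given by algebraic classes. -/
lemma rk1 {y : W.H X} {x : W.H Y} (hy : AS W X y) (hx : AS W Y x) :
    AOp W X Y ((W.tr X ∘ₗ LinearMap.mulLeft W.K y).smulRight x) := by
  refine AS.ind (p := fun y => AOp W X Y ((W.tr X ∘ₗ LinearMap.mulLeft W.K y).smulRight x))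
    ?_ ?_ hy
  · intro j y hy
    refine AS.ind (p := fun x => AOp W X Y ((W.tr X ∘ₗ LinearMap.mulLeft W.K y).smulRight x))
      ?_ ?_ hx
    · intro i x hx
      rw [← corr_swap_tmul (alg_gr hx) (alg_gr hy)]
      exact ⟨_, (((AS.of hx).map _).mul ((AS.of hy).map _)).map _, rfl⟩
    · intro a b ha hb
      have : (W.tr X ∘ₗ LinearMap.mulLeft W.K y).smulRight (a + b) =
          (W.tr X ∘ₗ LinearMap.mulLeft W.K y).smulRight a +
            (W.tr X ∘ₗ LinearMap.mulLeft W.K y).smulRight b := by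
        ext t
        simp [smul_add]
      rw [this]
      exact ha.add hb
  · intro a b ha hb
    have : (W.tr X ∘ₗ LinearMap.mulLeft W.K (a + b)).smulRight x =
        (W.tr X ∘ₗ LinearMap.mulLeft W.K a).smulRight x +
          (W.tr X ∘ₗ LinearMap.mulLeft W.K b).smulRight x := by
      ext t
      simp [add_mul, add_smul]
    rw [this]
    exact ha.add hb

/-- The rank one operator `a ↦ ⟨a, c⟩ x`. -/
noncomputable def rko (A : Ob W) (c x : W.H A.X) : Module.End W.K (W.H A.X) :=
  (A.b.flip c).smulRight x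

lemma rko_apply (A : Ob W) (c x a : W.H A.X) : rko A c x a = A.b a c • x := rfl

lemma rko_aop (A : Ob W) {c x : W.H A.X} (hc : AS W A.X c) (hx : AS W A.X x) :
    AOp W A.X A.X (rko A c x) := by
  have h := rk1 (A.fr.st_AS hc) hx
  have h2 : rko A c x = (W.tr A.X ∘ₗ LinearMap.mulLeft W.K (st W A.X A.D A.f c)).smulRight x := by
    ext a
    rw [rko_apply, LinearMap.smulRight_apply]
    congr 1
    change W.tr A.X (a * st W A.X A.D A.f c) = W.tr A.X (st W A.X A.D A.f c * a)
    rw [(A.fr.st_AS hc).comm]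
  rw [h2]
  exact h

lemma rko_mul (A : Ob W) (c x c' x' : W.H A.X) :
    rko A c x * rko A c' x' = A.b x' c • rko A c' x := by
  apply LinearMap.ext
  intro a
  rw [Module.End.mul_apply, rko_apply, rko_apply, LinearMap.smul_apply, rko_apply, map_smul,
    LinearMap.smul_apply, smul_eq_mul, smul_smul, mul_comm]

lemma rko_ad (A : Ob W) {c x : W.H A.X} (hc : AS W A.X c) (hx : AS W A.X x) :
    Ad A (rko A c x) (rko A x c) := by
  intro a b
  rw [rko_apply, rko_apply, map_smul, map_smul, LinearMap.smul_apply, smul_eq_mul, smul_eq_mul,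
    ← A.b_symm hx b]
  ring

lemma Ad.ext {A B : Ob W} {u u' : Module.End W.K (W.H A.X)} {w w' : Module.End W.K (W.H B.X)}
    (h : Ad A u u') (h' : Ad B w w') : Ad (A.prod B) (extOp W u w) (extOp W u' w') := by
  have key : (A.prod B).b ∘ₗ extOp W u w = (A.prod B).b.compl₂ (extOp W u' w') := by
    apply ext_kunneth_lin
    intro a b
    apply ext_kunneth_lin
    intro a' b'
    rw [LinearMap.comp_apply, LinearMap.compl₂_apply, extOp_tmul, extOp_tmul]
    have h1 := A.b_ext B (u a) a' (w b) b'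
    have h2 := A.b_ext B a (u' a') b (w' b')
    rw [h, h'] at h1
    exact h1.trans h2.symm
  intro x y
  exact congrArg (fun F => F x y) key

lemma Ad.one (A : Ob W) : Ad A 1 1 := fun _ _ => rfl

lemma Ad.sub {A : Ob W} {u u' w w' : Module.End W.K (W.H A.X)} (h : Ad A u u') (h' : Ad A w w') :
    Ad A (u - w) (u' - w') := by
  intro x y
  rw [LinearMap.sub_apply, LinearMap.sub_apply, map_sub, map_sub, LinearMap.sub_apply, h, h']

lemma Ad.smul {A : Ob W} {u u' : Module.End W.K (W.H A.X)} (c : W.K) (h : Ad A u u') :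
    Ad A (c • u) (c • u') := by
  intro x y
  rw [LinearMap.smul_apply, LinearMap.smul_apply, map_smul, map_smul, LinearMap.smul_apply, h]

lemma AOp.sub' {u w : Module.End W.K (W.H X)} (h : AOp W X X u) (h' : AOp W X X w) :
    AOp W X X (u - w) := by
  have h1 := h.add (h'.smul (-1))
  have h2 : u - w = u + ((-1 : ℚ) : W.K) • w := by
    ext a
    rw [Rat.cast_neg, Rat.cast_one, LinearMap.sub_apply, LinearMap.add_apply,
      LinearMap.smul_apply, neg_smul, one_smul, sub_eq_add_neg]
  rw [h2]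
  exact h1

/-- The associativity isomorphism is an isometry. -/
lemma assoc_b (A B C : Ob W) (x y : W.H (A.prod (B.prod C)).X) :
    ((A.prod B).prod C).b (W.map (θ₃ A.X B.X C.X).hom x) (W.map (θ₃ A.X B.X C.X).hom y) =
      (A.prod (B.prod C)).b x y := by
  have key : (((A.prod B).prod C).b.compl₂ (W.map (θ₃ A.X B.X C.X).hom).toLinearMap) ∘ₗ
      (W.map (θ₃ A.X B.X C.X).hom).toLinearMap = (A.prod (B.prod C)).b := by
    apply xpL_ext
    intro _ _ _ p _ a _ b _
    apply xpL_ext
    intro _ _ _ p' _ a' _ b' _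
    simp only [LinearMap.comp_apply, LinearMap.compl₂_apply, AlgHom.toLinearMap_apply]
    rw [θ₃_xp, θ₃_xp]
    have h1 := (A.prod B).b_ext C (ext W p a) (ext W p' a') b b'
    have h2 := A.b_ext B p p' a a'
    have h3 := A.b_ext (B.prod C) p p' (ext W a b) (ext W a' b')
    have h4 := B.b_ext C a a' b b'
    rw [h2] at h1
    rw [h4] at h3
    refine (h1.trans ?_).trans h3.symm
    ring
  exact congrArg (fun F => F x y) key

lemma Sg_assoc (A B C : Ob W) {h : Module.End W.K (W.H A.X)} (hh : AOp W A.X A.X h) :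
    Sg (A.prod (B.prod C)) (extOp W h (1 : Module.End W.K (W.H (B.prod C).X))) =
      Sg ((A.prod B).prod C) (extOp W (extOp W h (1 : Module.End W.K (W.H B.X)))
        (1 : Module.End W.K (W.H C.X))) := by
  symm
  exact Sg_iso (A := (A.prod B).prod C) (B := A.prod (B.prod C)) (θ₃ A.X B.X C.X)
    (assoc_b A B C) (fun x => θ₃_op h x) (Pr.of ((hh.ext AOp.one).ext AOp.one))

/-- Iterated products. -/
noncomputable def it (Q Z : Ob W) : ℕ → Ob W
  | 0 => Z
  | n + 1 => Q.prod (it Q Z n)

section Main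

variable {Q : Ob W} {e f z z' : Module.End W.K (W.H Q.X)} {κ : ℚ}

/-- The data of an anti-isometry between two images of idempotents. -/
structure Anti (Q : Ob W) (e f z z' : Module.End W.K (W.H Q.X)) (κ : ℚ) : Prop where
  pos : 0 < κ
  ea : AOp W Q.X Q.X e
  fa : AOp W Q.X Q.X f
  za : AOp W Q.X Q.X z
  za' : AOp W Q.X Q.X z'
  ee : e * e = e
  ff : f * f = f
  es : Ad Q e e
  fs : Ad Q f f
  zs : Ad Q z z'
  h1 : z' * z = ((-κ : ℚ) : W.K) • f
  h2 : z * z' = ((-κ : ℚ) : W.K) • e

lemma compl_add {T P : Ob W} {h : Module.End W.K (W.H T.X)} (ha : AOp W T.X T.X h)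
    (hh : h * h = h) (hs : Ad T h h) {e : Module.End W.K (W.H Q.X)} (ea : AOp W Q.X Q.X e)
    (ee : e * e = e) (es : Ad Q e e) :
    Sg ((T.prod Q).prod P) (extOp W (extOp W h (1 : Module.End W.K (W.H Q.X)))
      (1 : Module.End W.K (W.H P.X))) =
    Sg ((T.prod Q).prod P) (extOp W (extOp W h e) (1 : Module.End W.K (W.H P.X))) +
    Sg ((T.prod Q).prod P) (extOp W (extOp W h (1 - e)) (1 : Module.End W.K (W.H P.X))) := by
  have ea' : AOp W Q.X Q.X (1 - e) := AOp.sub' AOp.one ea
  have es' : Ad Q (1 - e) (1 - e) := (Ad.one Q).sub es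
  refine Sg_add (A := (T.prod Q).prod P) (Pr.of ((ha.ext ea).ext AOp.one))
    (Pr.of ((ha.ext ea').ext AOp.one)) ?_ ?_ ?_ ?_ ?_
    (((hs.ext es).ext (Ad.one P))) (((hs.ext es').ext (Ad.one P)))
  · rw [← extOp_add_left, ← extOp_add_right, add_sub_cancel]
  · rw [extOp_mul, extOp_mul, hh, ee, one_mul]
  · rw [extOp_mul, extOp_mul, hh, one_mul]
    congr 2
    rw [mul_sub, sub_mul, sub_mul, ee]
    simp
  · rw [extOp_mul, extOp_mul, hh, one_mul, mul_sub, ee, mul_one, sub_self, extOp_zero_right,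
      extOp_zero_left]
  · rw [extOp_mul, extOp_mul, hh, one_mul, sub_mul, ee, one_mul, sub_self, extOp_zero_right,
      extOp_zero_left]

/-- **The step.** -/
theorem step (h : Anti Q e f z z' κ) {T P : Ob W} {g : Module.End W.K (W.H T.X)}
    (ga : AOp W T.X T.X g) (gg : g * g = g) (gs : Ad T g g) :
    2 * Sg ((T.prod Q).prod P) (extOp W (extOp W g (1 : Module.End W.K (W.H Q.X)))
      (1 : Module.End W.K (W.H P.X))) =
    Sg ((T.prod Q).prod P) (extOp W (extOp W g (1 - e)) (1 : Module.End W.K (W.H P.X))) +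
    Sg ((T.prod Q).prod P) (extOp W (extOp W g (1 - f)) (1 : Module.End W.K (W.H P.X))) := by
  have k1 := compl_add (P := P) ga gg gs h.ea h.ee h.es
  have k2 := compl_add (P := P) ga gg gs h.fa h.ff h.fs
  have k3 : Sg ((T.prod Q).prod P) (extOp W (extOp W g e) (1 : Module.End W.K (W.H P.X))) =
      -Sg ((T.prod Q).prod P) (extOp W (extOp W g f) (1 : Module.End W.K (W.H P.X))) := by
    refine Sg_anti (A := (T.prod Q).prod P)
      (z := extOp W (extOp W g z) (1 : Module.End W.K (W.H P.X)))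
      (z' := extOp W (extOp W g z') (1 : Module.End W.K (W.H P.X))) h.pos
      (Pr.of ((ga.ext h.za).ext AOp.one)) (Pr.of ((ga.ext h.za').ext AOp.one))
      (Pr.of ((ga.ext h.ea).ext AOp.one)) (Pr.of ((ga.ext h.fa).ext AOp.one))
      (((gs.ext h.zs).ext (Ad.one P))) ?_ ?_ ?_ ?_
    · rw [extOp_mul, extOp_mul, gg, h.h1, one_mul, extOp_smul_right, extOp_smul_left]
    · rw [extOp_mul, extOp_mul, gg, h.h2, one_mul, extOp_smul_right, extOp_smul_left]
    · rw [extOp_mul, extOp_mul, gg, h.ee, one_mul]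
    · rw [extOp_mul, extOp_mul, gg, h.ff, one_mul]
  linarith

lemma range_one (X : 𝒱.Obj) :
    finrank W.K (LinearMap.range (1 : Module.End W.K (W.H X))) = finrank W.K (W.H X) := by
  rw [Module.End.one_eq_id, LinearMap.range_id, finrank_top]

/-- **The bound for the signature.** -/
theorem bound (h : Anti Q e f z z' κ) {r : ℕ}
    (hr : finrank W.K (LinearMap.range (1 - e)) ≤ r)
    (hr' : finrank W.K (LinearMap.range (1 - f)) ≤ r) (Z : Ob W) (n : ℕ) :
    ∀ (T : Ob W) (g : Module.End W.K (W.H T.X)), AOp W T.X T.X g → g * g = g → Ad T g g →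
      |Sg (T.prod (it Q Z n)) (extOp W g (1 : Module.End W.K (W.H (it Q Z n).X)))| ≤
        finrank W.K (LinearMap.range g) * (r ^ n * finrank W.K (W.H Z.X) : ℕ) := by
  induction n with
  | zero =>
    intro T g ga gg gs
    have h1 := Sg_le (T.prod Z) (Pr.of (ga.ext (AOp.one (W := W) (X := Z.X))))
    rw [finrank_extOp gg rfl, range_one] at h1
    rw [pow_zero, one_mul]
    exact_mod_cast h1
  | succ n ih =>
    intro T g ga gg gs
    have hc := finrank_compl (W := W) (P := Q.X) h.ee
    have hc' := finrank_compl (W := W) (P := Q.X) h.ff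
    have h1 := Sg_assoc T Q (it Q Z n) ga
    change |Sg (T.prod (Q.prod (it Q Z n))) (extOp W g
      (1 : Module.End W.K (W.H (Q.prod (it Q Z n)).X)))| ≤ _
    rw [h1]
    have h2 := step (P := it Q Z n) h ga gg gs
    have ea' : AOp W Q.X Q.X (1 - e) := AOp.sub' AOp.one h.ea
    have es' : Ad Q (1 - e) (1 - e) := (Ad.one Q).sub h.es
    have fa' : AOp W Q.X Q.X (1 - f) := AOp.sub' AOp.one h.fa
    have fs' : Ad Q (1 - f) (1 - f) := (Ad.one Q).sub h.fs
    have ee' : (1 - e) * (1 - e) = 1 - e := hc.1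
    have ff' : (1 - f) * (1 - f) = 1 - f := hc'.1
    have h3 := ih (T.prod Q) (extOp W g (1 - e)) (ga.ext ea')
      (by rw [extOp_mul, gg, ee']) (gs.ext es')
    have h4 := ih (T.prod Q) (extOp W g (1 - f)) (ga.ext fa')
      (by rw [extOp_mul, gg, ff']) (gs.ext fs')
    rw [finrank_extOp gg ee'] at h3
    rw [finrank_extOp gg ff'] at h4
    set N := finrank W.K (LinearMap.range g)
    set M := (r ^ n * finrank W.K (W.H Z.X) : ℕ) with hM
    have h5 : ((N * finrank W.K (LinearMap.range (1 - e)) : ℕ) : ℤ) * (M : ℤ) ≤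
        (N : ℤ) * ((r ^ (n + 1) * finrank W.K (W.H Z.X) : ℕ) : ℤ) := by
      have : N * finrank W.K (LinearMap.range (1 - e)) * M ≤
          N * (r ^ (n + 1) * finrank W.K (W.H Z.X)) := by
        rw [hM, mul_assoc]
        apply Nat.mul_le_mul_left
        rw [pow_succ']
        calc finrank W.K (LinearMap.range (1 - e)) * (r ^ n * finrank W.K (W.H Z.X)) ≤
            r * (r ^ n * finrank W.K (W.H Z.X)) := Nat.mul_le_mul_right _ hr
          _ = _ := by ring
      exact_mod_cast this
    have h6 : ((N * finrank W.K (LinearMap.range (1 - f)) : ℕ) : ℤ) * (M : ℤ) ≤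
        (N : ℤ) * ((r ^ (n + 1) * finrank W.K (W.H Z.X) : ℕ) : ℤ) := by
      have : N * finrank W.K (LinearMap.range (1 - f)) * M ≤
          N * (r ^ (n + 1) * finrank W.K (W.H Z.X)) := by
        rw [hM, mul_assoc]
        apply Nat.mul_le_mul_left
        rw [pow_succ']
        calc finrank W.K (LinearMap.range (1 - f)) * (r ^ n * finrank W.K (W.H Z.X)) ≤
            r * (r ^ n * finrank W.K (W.H Z.X)) := Nat.mul_le_mul_right _ hr'
          _ = _ := by ring
      exact_mod_cast this
    have h7 := h3.trans h5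
    have h8 := h4.trans h6
    rw [abs_le] at h7 h8 ⊢
    constructor <;> linarith [h7.1, h7.2, h8.1, h8.2]

end Main

end Pool.Agent.U226.SG
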