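import Pool.Agent.U226.SG.Step

/-!
# The signature of the form on all algebraic classes
-/

set_option autoImplicit false
set_option linter.unusedSectionVars false

open CategoryTheory AlgebraicGeometry Finset

universe u v

namespace Pool.Agent.U226.SG

open Module
open Pool.Agent.H914 Pool.Agent.H914.VarClass Pool.Agent.H914.VarClass.Obj
  Pool.Agent.H914.WeilCohomology Pool.Agent.H281R3.HT Pool.Agent.W552
open Pool.Agent.W539.Ker (PosFam posIdx OM exists_OM Gd exists_fam wsum AS_wt sig)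

variable {k : Type u} [Field k] {𝒱 : VarClass k} {ops : CycleOps 𝒱}
  {W : WeilCohomology.{u, v} ops} {X Y Z : 𝒱.Obj}

/-- Counting the weights. -/
lemma card_wt (d n : ℕ) (hn : 2 * n ≤ d) :
    ((Icc (-(d : ℤ)) d).filter (fun m => |m| ≤ (d : ℤ) - 2 * n ∧ (2 : ℤ) ∣ d + m)).card =
      d - 2 * n + 1 := by
  rw [← Finset.card_range (d - 2 * n + 1)]
  symm
  apply Finset.card_bij (fun (i : ℕ) _ => 2 * (i : ℤ) - ((d : ℤ) - 2 * n))
  · intro i hi
    rw [Finset.mem_range] at hi
    rw [Finset.mem_filter, Finset.mem_Icc]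
    refine ⟨⟨by omega, by omega⟩, abs_le.2 ⟨by omega, by omega⟩, by omega⟩
  · intro i _ j _ h
    omega
  · intro m hm
    rw [Finset.mem_filter, Finset.mem_Icc] at hm
    obtain ⟨-, h1, h2⟩ := hm
    have h3 := abs_le.1 h1
    refine ⟨((m + d - 2 * n) / 2).toNat, ?_, ?_⟩
    · rw [Finset.mem_range]
      omega
    · omega

lemma sum_wsum (d : ℕ) (σ : ℕ → ℤ) : ∑ m ∈ Icc (-(d : ℤ)) d, wsum d σ m =
    ∑ n ∈ range (d / 2 + 1), ((d : ℤ) - 2 * n + 1) * σ n := by
  unfold wsum
  rw [Finset.sum_comm]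
  apply Finset.sum_congr rfl
  intro n hn
  rw [Finset.mem_range] at hn
  rw [← Finset.sum_filter, Finset.sum_const, card_wt d n (by omega), nsmul_eq_mul]
  congr 1
  have : 2 * n ≤ d := by omega
  push_cast [Nat.cast_sub this]
  ring

/-- **The signature of the form on all algebraic classes.** -/
theorem total (A : Ob W) : Sg A 1 = ∑ j ∈ range (A.X.dim / 2 + 1),
    ((A.X.dim : ℤ) - 2 * j + 1) * sig W A.X A.D j := by
  classical
  rw [← sum_wsum]
  choose ι hι y s hyA hyw hs0 hyy hyo hymax hsum using fun m : ℤ => exists_fam A.fr m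
  let _ := hι
  let I := {m : ℤ // m ∈ Icc (-(A.X.dim : ℤ)) A.X.dim}
  let x : (Σ m : I, ι m.1) → AM W A.X := fun t => ⟨y t.1.1 t.2, hyA _ _⟩
  have hval : ∀ t, qf A (x t) (x t) = s t.1.1 t.2 := by
    intro t
    have h1 := qf_cast A (x t) (x t)
    have h2 := hyy t.1.1 t.2
    have h3 : ((qf A (x t) (x t) : ℚ) : W.K) = ((s t.1.1 t.2 : ℚ) : W.K) := h1.trans h2
    exact_mod_cast h3
  -- degrees
  have hdeg : ∀ (m : ℤ) (i : ι m), y m i = 0 ∨ ∃ j : ℕ, (2 * j : ℤ) = A.X.dim + m ∧
      y m i ∈ W.gr A.X (2 * j) := by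
    intro m i
    rcases AS_wt (hyA m i) (hyw m i) with h | ⟨j, hj, h⟩
    · exact Or.inl h
    · exact Or.inr ⟨j, hj, alg_gr h⟩
  have hne : ∀ (m : ℤ) (i : ι m), ∃ j : ℕ, (2 * j : ℤ) = A.X.dim + m ∧
      y m i ∈ W.gr A.X (2 * j) := by
    intro m i
    rcases hdeg m i with h | h
    · exfalso
      have h1 := hyy m i
      rw [h, map_zero] at h1
      exact hs0 m i (by exact_mod_cast h1.symm)
    · exact h
  have hOM : OM (qf A) x := by
    refine ⟨?_, ?_, ?_⟩
    · intro t
      rw [hval]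
      exact hs0 _ _
    · rintro ⟨⟨m, hm⟩, i⟩ ⟨⟨m', hm'⟩, i'⟩ hij
      have h1 := qf_cast A (x ⟨⟨m, hm⟩, i⟩) (x ⟨⟨m', hm'⟩, i'⟩)
      have h2 : A.b (y m i) (y m' i') = 0 := by
        by_cases hmm : m = m'
        · subst hmm
          exact hyo m i i' (fun h => hij (by rw [h]))
        · obtain ⟨j, hj, h3⟩ := hne m i
          obtain ⟨j', hj', h4⟩ := hne m' i'
          exact A.fr.bf_deg h3 h4 (by omega)
      have h3 : ((qf A (x ⟨⟨m, hm⟩, i⟩) (x ⟨⟨m', hm'⟩, i'⟩) : ℚ) : W.K) = 0 := h1.trans h2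
      exact_mod_cast h3
    · intro u hu
      have hu2 := Fr.AS_sum u.2
      have hcomp : ∀ j, AS W A.X (proj (W.isInternal A.X) (2 * j) u.1) :=
        fun j => AS.of (u.2.proj j)
      have hzero : ∀ j ∈ range (A.X.dim + 1), A.b (proj (W.isInternal A.X) (2 * j) u.1)
          (proj (W.isInternal A.X) (2 * j) u.1) = 0 := by
        intro j hj
        rw [Finset.mem_range] at hj
        set m : ℤ := 2 * j - A.X.dim with hm
        refine hymax m _ (hcomp j) ?_ ?_
        · have h1 := Fr.wt_gr (proj_mem (W.isInternal A.X) (2 * j) u.1)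
          rw [h1]
          congr 1
          rw [hm]
          push_cast
          ring
        · intro i
          have h1 : A.b u.1 (y m i) = 0 := by
            have h2 := qf_cast A u (x ⟨⟨m, by rw [Finset.mem_Icc]; omega⟩, i⟩)
            rw [hu, Rat.cast_zero] at h2
            exact h2.symm
          obtain ⟨l, hl, h3⟩ := hne m i
          have h4 : A.b u.1 (y m i) = A.b (proj (W.isInternal A.X) (2 * j) u.1) (y m i) := by
            conv_lhs => rw [hu2]
            rw [map_sum, LinearMap.sum_apply, Finset.sum_eq_single j]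
            · intro b _ hb
              exact A.fr.bf_deg (proj_mem _ _ _) h3 (by omega)
            · intro h0
              exact absurd (Finset.mem_range.2 hj) h0
          rw [h4] at h1
          exact h1
      have h1 : A.b u.1 u.1 = 0 := by
        have h2 : A.b u.1 u.1 = A.b (∑ j ∈ Finset.range (A.X.dim + 1),
            proj (W.isInternal A.X) (2 * j) u.1) (∑ j ∈ Finset.range (A.X.dim + 1),
            proj (W.isInternal A.X) (2 * j) u.1) := by rw [← hu2]
        rw [h2, map_sum A.b, LinearMap.sum_apply]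
        apply Finset.sum_eq_zero
        intro j hj
        rw [map_sum, Finset.sum_eq_single j]
        · exact hzero j hj
        · intro b _ hb
          exact A.fr.bf_deg (proj_mem _ _ _) (proj_mem _ _ _) (by omega)
        · intro h0
          exact absurd hj h0
      have h2 := qf_cast A u u
      rw [h1] at h2
      exact_mod_cast h2
  have h1 : Sg A 1 = sg (qf A) := by
    rw [Sg_of Pr.one]
    rfl
  rw [h1, sg_eq (qf_symm A) hOM, Fintype.sum_sigma]
  have h2 : ∀ m : I, ∑ i, ((SignType.sign (qf A (x ⟨m, i⟩) (x ⟨m, i⟩)) : SignType) : ℤ) =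
      wsum A.X.dim (sig W A.X A.D) m.1 := by
    intro m
    rw [← hsum m.1]
    apply Finset.sum_congr rfl
    intro i _
    rw [hval]
  rw [Finset.sum_congr rfl (fun m _ => h2 m)]
  exact Finset.sum_coe_sort (Icc (-(A.X.dim : ℤ)) A.X.dim)
    (fun m => wsum A.X.dim (sig W A.X A.D) m)

end Pool.Agent.U226.SG
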