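import Pool.Agent.U226.SG.Fam3
import Pool.Agent.U226.SG.Neg
import Pool.Agent.U226.SG.Grow

/-!
# The total numbers of positive and of negative squares, and the rank
-/

set_option autoImplicit false
set_option linter.unusedSectionVars false

open CategoryTheory AlgebraicGeometry Finset

universe u v

namespace Pool.Agent.U226.SG

open Module
open Pool.Agent.H914 Pool.Agent.H914.VarClass Pool.Agent.H914.VarClass.Obj
  Pool.Agent.H914.WeilCohomology Pool.Agent.H281R3.HT Pool.Agent.W552
open Pool.Agent.W539.Ker (PosFam posIdx OM exists_OM Gd wsum AS_wt)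
open Pool.Agent.Y133.Half (algSys rk rk_comp numDim_eq_cycRank)
open Pool.Agent.N181.Gap (rkSum)

variable {k : Type u} [Field k] {𝒱 : VarClass k} {ops : CycleOps 𝒱}
  {W : WeilCohomology.{u, v} ops} {X Y Z : 𝒱.Obj}

/-- **A maximal orthogonal family of algebraic classes.** -/
theorem exists_om (A : Ob W) : ∃ (J : Type) (_ : Fintype J) (x : J → AM W A.X), OM (qf A) x ∧
    ∀ φ : SignType → ℤ, ∑ i, φ (SignType.sign (qf A (x i) (x i))) =
      ∑ j ∈ range (A.X.dim / 2 + 1), ((A.X.dim : ℤ) - 2 * j + 1) *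
        (posN W A.X A.D j * φ 1 + negN W A.X A.D j * φ (-1)) := by
  classical
  choose ι hι y s hyA hyw hs0 hyy hyo hymax hsum using fun m : ℤ => exists_fam' A.fr m
  let _ := hι
  let I := {m : ℤ // m ∈ Icc (-(A.X.dim : ℤ)) A.X.dim}
  let x : (Σ m : I, ι m.1) → AM W A.X := fun t => ⟨y t.1.1 t.2, hyA _ _⟩
  have hval : ∀ t, qf A (x t) (x t) = s t.1.1 t.2 := by
    intro t
    have h1 := qf_cast A (x t) (x t)
    have h2 := hyy t.1.1 t.2
    have h3 : ((qf A (x t) (x t) : ℚ) : W.K) = ((s t.1.1 t.2 : ℚ) : W.K) := h1.trans h2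
    exact_mod_cast h3
  -- degrees
  have hdeg : ∀ (m : ℤ) (i : ι m), y m i = 0 ∨ ∃ j : ℕ, (2 * j : ℤ) = A.X.dim + m ∧
      y m i ∈ W.gr A.X (2 * j) := by
    intro m i
    rcases AS_wt (hyA m i) (hyw m i) with h | ⟨j, hj, h⟩
    · exact Or.inl h
    · exact Or.inr ⟨j, hj, alg_gr h⟩
  have hne : ∀ (m : ℤ) (i : ι m), ∃ j : ℕ, (2 * j : ℤ) = A.X.dim + m ∧
      y m i ∈ W.gr A.X (2 * j) := by
    intro m i
    rcases hdeg m i with h | h
    · exfalso
      have h1 := hyy m i
      rw [h, map_zero] at h1
      exact hs0 m i (by exact_mod_cast h1.symm)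
    · exact h
  have hOM : OM (qf A) x := by
    refine ⟨?_, ?_, ?_⟩
    · intro t
      rw [hval]
      exact hs0 _ _
    · rintro ⟨⟨m, hm⟩, i⟩ ⟨⟨m', hm'⟩, i'⟩ hij
      have h1 := qf_cast A (x ⟨⟨m, hm⟩, i⟩) (x ⟨⟨m', hm'⟩, i'⟩)
      have h2 : A.b (y m i) (y m' i') = 0 := by
        by_cases hmm : m = m'
        · subst hmm
          exact hyo m i i' (fun h => hij (by rw [h]))
        · obtain ⟨j, hj, h3⟩ := hne m i
          obtain ⟨j', hj', h4⟩ := hne m' i'
          exact A.fr.bf_deg h3 h4 (by omega)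
      have h3 : ((qf A (x ⟨⟨m, hm⟩, i⟩) (x ⟨⟨m', hm'⟩, i'⟩) : ℚ) : W.K) = 0 := h1.trans h2
      exact_mod_cast h3
    · intro u hu
      have hu2 := Fr.AS_sum u.2
      have hcomp : ∀ j, AS W A.X (proj (W.isInternal A.X) (2 * j) u.1) :=
        fun j => AS.of (u.2.proj j)
      have hzero : ∀ j ∈ range (A.X.dim + 1), A.b (proj (W.isInternal A.X) (2 * j) u.1)
          (proj (W.isInternal A.X) (2 * j) u.1) = 0 := by
        intro j hj
        rw [Finset.mem_range] at hj
        set m : ℤ := 2 * j - A.X.dim with hm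
        refine hymax m _ (hcomp j) ?_ ?_
        · have h1 := Fr.wt_gr (proj_mem (W.isInternal A.X) (2 * j) u.1)
          rw [h1]
          congr 1
          rw [hm]
          push_cast
          ring
        · intro i
          have h1 : A.b u.1 (y m i) = 0 := by
            have h2 := qf_cast A u (x ⟨⟨m, by rw [Finset.mem_Icc]; omega⟩, i⟩)
            rw [hu, Rat.cast_zero] at h2
            exact h2.symm
          obtain ⟨l, hl, h3⟩ := hne m i
          have h4 : A.b u.1 (y m i) = A.b (proj (W.isInternal A.X) (2 * j) u.1) (y m i) := by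
            conv_lhs => rw [hu2]
            rw [map_sum, LinearMap.sum_apply, Finset.sum_eq_single j]
            · intro b _ hb
              exact A.fr.bf_deg (proj_mem _ _ _) h3 (by omega)
            · intro h0
              exact absurd (Finset.mem_range.2 hj) h0
          rw [h4] at h1
          exact h1
      have h1 : A.b u.1 u.1 = 0 := by
        have h2 : A.b u.1 u.1 = A.b (∑ j ∈ Finset.range (A.X.dim + 1),
            proj (W.isInternal A.X) (2 * j) u.1) (∑ j ∈ Finset.range (A.X.dim + 1),
            proj (W.isInternal A.X) (2 * j) u.1) := by rw [← hu2]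
        rw [h2, map_sum A.b, LinearMap.sum_apply]
        apply Finset.sum_eq_zero
        intro j hj
        rw [map_sum, Finset.sum_eq_single j]
        · exact hzero j hj
        · intro b _ hb
          exact A.fr.bf_deg (proj_mem _ _ _) (proj_mem _ _ _) (by omega)
        · intro h0
          exact absurd hj h0
      have h2 := qf_cast A u u
      rw [h1] at h2
      exact_mod_cast h2
  refine ⟨_, inferInstance, x, hOM, fun φ => ?_⟩
  rw [← sum_wsum A.X.dim (fun j => posN W A.X A.D j * φ 1 + negN W A.X A.D j * φ (-1)),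
    Fintype.sum_sigma]
  have h2 : ∀ m : I, ∑ i, φ (SignType.sign (qf A (x ⟨m, i⟩) (x ⟨m, i⟩))) =
      wsum A.X.dim (fun j => posN W A.X A.D j * φ 1 + negN W A.X A.D j * φ (-1)) m.1 := by
    intro m
    rw [← hsum m.1 φ]
    apply Finset.sum_congr rfl
    intro i _
    rw [hval]
  rw [Finset.sum_congr rfl (fun m _ => h2 m)]
  exact Finset.sum_coe_sort (Icc (-(A.X.dim : ℤ)) A.X.dim)
    (fun m => wsum A.X.dim (fun j => posN W A.X A.D j * φ 1 + negN W A.X A.D j * φ (-1)) m)

/-- The weighted number of positive squares. -/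
noncomputable def posT (W : WeilCohomology.{u, v} ops) (P : Polarized 𝒱) : ℤ :=
  ∑ j ∈ range (P.X.dim / 2 + 1), ((P.X.dim : ℤ) - 2 * j + 1) * posN W P.X P.D j

/-- The weighted number of negative squares. -/
noncomputable def negT (W : WeilCohomology.{u, v} ops) (P : Polarized 𝒱) : ℤ :=
  ∑ j ∈ range (P.X.dim / 2 + 1), ((P.X.dim : ℤ) - 2 * j + 1) * negN W P.X P.D j

/-- The signature in terms of the weighted numbers. -/
theorem Sg_eq_sub (A : Ob W) : Sg A 1 = posT W ⟨A.X, A.D⟩ - negT W ⟨A.X, A.D⟩ := by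
  obtain ⟨J, hJ, x, hx, hφ⟩ := exists_om A
  have h1 : Sg A 1 = sg (qf A) := by
    rw [Sg_of Pr.one]
    rfl
  have h2 := hφ (fun s => (s : ℤ))
  rw [h1, sg_eq (qf_symm A) hx, h2, posT, negT, ← Finset.sum_sub_distrib]
  apply Finset.sum_congr rfl
  intro j _
  simp
  ring

lemma algSpan_ind {X : 𝒱.Obj} {p : W.H X → Prop} (h0 : p 0) (hadd : ∀ a b, p a → p b → p (a + b))
    (hsmul : ∀ (r : W.K) a, p a → p (r • a)) (has : ∀ a, AS W X a → p a) {c : W.H X}
    (hc : c ∈ (algSys W).C X) : p c := by
  have hc' : c ∈ Submodule.span W.K (⋃ j, algClasses W X j) := hc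
  induction hc' using Submodule.span_induction with
  | mem x hx =>
    obtain ⟨j, hj⟩ := Set.mem_iUnion.1 hx
    exact has x (AS.of hj)
  | zero => exact h0
  | add a b ha hb iha ihb => exact hadd a b (iha ha) (ihb hb)
  | smul r a ha iha => exact hsmul r a (iha ha)

/-- **The rank of the cycles modulo numerical equivalence.** -/
theorem rank_eq (A : Ob W) :
    (rkSum ops A.X : ℤ) = posT W ⟨A.X, A.D⟩ + negT W ⟨A.X, A.D⟩ := by
  classical
  obtain ⟨J, hJ, x, hx, hφ⟩ := exists_om A
  have h1 := hφ (fun _ => 1)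
  have h2 : posT W ⟨A.X, A.D⟩ + negT W ⟨A.X, A.D⟩ = Fintype.card J := by
    rw [Finset.sum_const, Finset.card_univ, nsmul_eq_mul, mul_one] at h1
    rw [h1, posT, negT, ← Finset.sum_add_distrib]
    apply Finset.sum_congr rfl
    intro j _
    ring
  rw [h2]
  have h3 : rkSum ops A.X = (algSys W).a A.X := (numDim_eq_cycRank W A.X).symm
  rw [h3]
  congr 1
  -- the form on the span
  set S := algSys W
  have hst : ∀ c ∈ S.C A.X, st W A.X A.D A.f c ∈ S.C A.X := by
    intro c hc
    refine algSpan_ind (p := fun c => st W A.X A.D A.f c ∈ S.C A.X) ?_ ?_ ?_ ?_ hc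
    · rw [map_zero]; exact Submodule.zero_mem _
    · intro a b ha hb; rw [map_add]; exact Submodule.add_mem _ ha hb
    · intro r a ha; rw [map_smul]; exact Submodule.smul_mem _ _ ha
    · intro a ha; exact AS_span (A.fr.st_AS ha)
  let s : S.C A.X →ₗ[W.K] S.C A.X := (st W A.X A.D A.f).restrict hst
  have hs : Function.Surjective s := by
    rintro ⟨c, hc⟩
    obtain ⟨c', hc', h⟩ : ∃ c' ∈ S.C A.X, st W A.X A.D A.f c' = c := by
      refine algSpan_ind (p := fun c => ∃ c' ∈ S.C A.X, st W A.X A.D A.f c' = c) ?_ ?_ ?_ ?_ hc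
      · exact ⟨0, Submodule.zero_mem _, map_zero _⟩
      · rintro a b ⟨a', ha, rfl⟩ ⟨b', hb, rfl⟩
        exact ⟨a' + b', Submodule.add_mem _ ha hb, map_add _ _ _⟩
      · rintro r a ⟨a', ha, rfl⟩
        exact ⟨r • a', Submodule.smul_mem _ _ ha, map_smul _ _ _⟩
      · intro a ha
        obtain ⟨a', ha', h⟩ := st_surj A ha
        exact ⟨a', AS_span ha', h⟩
    exact ⟨⟨c', hc'⟩, Subtype.ext h⟩
  set β := (S.F A.X 1).compl₁₂ LinearMap.id s with hβ
  have h4 : S.a A.X = rk β :=
    (rk_comp (S.F A.X 1) (f := LinearMap.id) Function.surjective_id hs).symm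
  have hβ' : ∀ c d, β c d = A.b (c : W.H A.X) (d : W.H A.X) := fun c d => rfl
  rw [h4, rk]
  -- orthogonality to the family implies orthogonality to everything
  have hpol : ∀ u v : AM W A.X, (∀ i, qf A u (x i) = 0) → (∀ i, qf A v (x i) = 0) →
      qf A u v = 0 := by
    intro u v hu hv
    have k1 := hx.max u hu
    have k2 := hx.max v hv
    have k3 := hx.max (u + v) fun i => by
      rw [map_add, LinearMap.add_apply, hu, hv, add_zero]
    rw [map_add, map_add, LinearMap.add_apply, LinearMap.add_apply, k1, k2,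
      qf_symm A v u] at k3
    linarith
  let X₀ : J → S.C A.X := fun i => ⟨(x i).1, AS_span (x i).2⟩
  have hbx : ∀ i j, A.b (x i).1 (x j).1 = if i = j then ((qf A (x i) (x i) : ℚ) : W.K) else 0 := by
    intro i j
    have k1 := qf_cast A (x i) (x j)
    by_cases hij : i = j
    · subst hij
      rw [if_pos rfl]
      exact k1.symm
    · rw [if_neg hij, ← k1, hx.orth i j hij, Rat.cast_zero]
  have hne : ∀ i, ((qf A (x i) (x i) : ℚ) : W.K) ≠ 0 := fun i => by
    have := hx.ne i
    exact_mod_cast this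
  -- projection of algebraic classes
  have hproj : ∀ a : AM W A.X, ∃ c : J → ℚ, ∀ i, qf A (a - ∑ j, c j • x j) (x i) = 0 := by
    intro a
    refine ⟨fun j => qf A a (x j) / qf A (x j) (x j), fun i => ?_⟩
    rw [map_sub, LinearMap.sub_apply, map_sum, LinearMap.sum_apply, Finset.sum_eq_single i]
    · rw [map_smul, LinearMap.smul_apply, smul_eq_mul, div_mul_cancel₀ _ (hx.ne i), sub_self]
    · intro j _ hj
      rw [map_smul, LinearMap.smul_apply, hx.orth j i hj, smul_zero]
    · intro h0; exact absurd (Finset.mem_univ _) h0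
  let π : S.C A.X →ₗ[W.K] (J → W.K) := LinearMap.pi fun i => β.flip (X₀ i)
  have hπ : ∀ c i, π c i = A.b (c : W.H A.X) (x i).1 := fun c i => rfl
  have hker : LinearMap.ker β = LinearMap.ker π := by
    ext c
    rw [LinearMap.mem_ker, LinearMap.mem_ker]
    constructor
    · intro h
      funext i
      rw [hπ, ← hβ' c (X₀ i), h]
      rfl
    · intro h
      -- decompose `d` in the span
      apply LinearMap.ext
      rintro ⟨d, hd⟩
      have hc0 : ∀ i, A.b (c : W.H A.X) (x i).1 = 0 := fun i => congrFun h i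
      have key : A.b (c : W.H A.X) d = 0 := by
        refine algSpan_ind (p := fun d => A.b (c : W.H A.X) d = 0) ?_ ?_ ?_ ?_ hd
        · rw [map_zero]
        · intro a b ha hb; rw [map_add, ha, hb, add_zero]
        · intro r a ha; rw [map_smul, ha, smul_zero]
        · intro a ha
          obtain ⟨t, ht⟩ := hproj ⟨a, ha⟩
          set a' : AM W A.X := ⟨a, ha⟩ - ∑ j, t j • x j with ha'
          have e1 : A.b (c : W.H A.X) a = A.b (c : W.H A.X) a'.1 := by
            have e2 : a'.1 = a - ∑ j, ((t j : ℚ) : W.K) • (x j).1 := by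
              rw [ha', AddSubgroupClass.coe_sub, AddSubmonoidClass.coe_finsetSum]
              rfl
            rw [e2, map_sub, map_sum, Finset.sum_eq_zero, sub_zero]
            intro j _
            rw [map_smul, hc0, smul_zero]
          rw [e1]
          -- `a'` is orthogonal to the whole span
          obtain ⟨cv, hcv⟩ := c
          refine algSpan_ind (p := fun c => A.b c a'.1 = 0) ?_ ?_ ?_ ?_ hcv
          · rw [map_zero, LinearMap.zero_apply]
          · intro a b ha hb; rw [map_add, LinearMap.add_apply, ha, hb, add_zero]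
          · intro r a ha; rw [map_smul, LinearMap.smul_apply, ha, smul_zero]
          · intro e he
            obtain ⟨t', ht'⟩ := hproj ⟨e, he⟩
            set e' : AM W A.X := ⟨e, he⟩ - ∑ j, t' j • x j with he'
            have e3 : (⟨e, he⟩ : AM W A.X) = e' + ∑ j, t' j • x j := by rw [he']; abel
            have e4 : qf A ⟨e, he⟩ a' = 0 := by
              rw [e3, map_add, LinearMap.add_apply, hpol e' a' ht' ht, zero_add, map_sum,
                LinearMap.sum_apply]
              apply Finset.sum_eq_zero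
              intro j _
              rw [map_smul, LinearMap.smul_apply, qf_symm, ht, smul_zero]
            have e5 := qf_cast A ⟨e, he⟩ a'
            rw [e4, Rat.cast_zero] at e5
            exact e5.symm
      exact key
  have hsurj : Function.Surjective π := by
    intro g
    refine ⟨∑ i, (g i / ((qf A (x i) (x i) : ℚ) : W.K)) • X₀ i, ?_⟩
    funext j
    rw [map_sum, Finset.sum_apply, Finset.sum_eq_single j]
    · rw [map_smul, Pi.smul_apply, hπ]
      change _ • A.b (x j).1 (x j).1 = _
      rw [hbx, if_pos rfl, smul_eq_mul, div_mul_cancel₀ _ (hne j)]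
    · intro i _ hij
      rw [map_smul, Pi.smul_apply, hπ]
      change _ • A.b (x i).1 (x j).1 = _
      rw [hbx, if_neg hij, smul_zero]
    · intro h0; exact absurd (Finset.mem_univ _) h0
  have h5 := LinearMap.finrank_range_add_finrank_ker β
  have h6 := LinearMap.finrank_range_add_finrank_ker π
  rw [LinearMap.range_eq_top.2 hsurj, finrank_top, Module.finrank_fintype_fun_eq_card] at h6
  rw [hker] at h5
  omega

end Pool.Agent.U226.SG
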